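import Pool.Agent.L0h14.QU.Pair
import Pool.Agent.N113.BT.Spin

set_option autoImplicit false
set_option linter.unusedSectionVars false
set_option linter.unusedVariables false

/-!
# Orthogonal Lie algebras of one colour, as matrices
-/

open Module

noncomputable section

namespace Pool.Agent.L0h14.QU

open Pool.Agent.Y102 Pool.Agent.N192.GP Pool.Agent.N113.BT

section Tr

variable {R R' : Type} [Ring R] [Algebra ℂ R] [Ring R'] [Algebra ℂ R']

theorem rigid_of_equiv (f : R ≃ₐ[ℂ] R') {S0 : Submodule ℂ R}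
    (h : Rigid (S0.map f.toLinearMap)) : Rigid S0 := by
  intro 𝔥 hle hbr hgen
  have hadj : ∀ x ∈ Algebra.adjoin ℂ (𝔥 : Set R), f x ∈
      Algebra.adjoin ℂ (𝔥.map f.toLinearMap : Set R') := by
    intro x hx
    induction hx using Algebra.adjoin_induction with
    | mem x hx => exact Algebra.subset_adjoin ⟨x, hx, rfl⟩
    | algebraMap r =>
      rw [AlgEquiv.commutes]
      exact Subalgebra.algebraMap_mem _ r
    | add x y _ _ hx hy => rw [map_add]; exact Subalgebra.add_mem _ hx hy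
    | mul x y _ _ hx hy => rw [map_mul]; exact Subalgebra.mul_mem _ hx hy
  have key := h (𝔥.map f.toLinearMap) (Submodule.map_mono hle) ?_ ?_
  · intro x hx
    obtain ⟨y, hy, h1⟩ := key ⟨x, hx, rfl⟩
    rw [← f.injective h1]
    exact hy
  · rintro _ ⟨x, hx, rfl⟩ _ ⟨y, hy, rfl⟩
    refine ⟨x * y - y * x, hbr x hx y hy, ?_⟩
    change f (x * y - y * x) = f x * f y - f y * f x
    rw [map_sub, map_mul, map_mul]
  · rintro _ ⟨x, hx, rfl⟩
    exact hadj x (hgen x hx)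

end Tr

variable {N d : ℕ} (E : Fin N → Matrix (Fin d) (Fin d) ℂ)

/-- The orthogonal Lie algebra of a Clifford system. -/
abbrev so1 : Submodule ℂ (Matrix (Fin d) (Fin d) ℂ) := soM E (fun _ => (0 : Fin 1))

variable {E}

theorem so1_map : (so1 E).map (Matrix.toLinAlgEquiv' (R := ℂ) (n := Fin d)).toLinearMap =
    SP.soE (enM E) := by
  rw [soM_map, soC_one]

theorem mem_so1 {x : Matrix (Fin d) (Fin d) ℂ} :
    x ∈ so1 E ↔ Matrix.toLinAlgEquiv' x ∈ SP.soE (enM E) := by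
  rw [mem_soM, soC_one]

variable (hsq : ∀ i, E i * E i = 1) (hanti : ∀ i j, i ≠ j → E i * E j = -(E j * E i))
  (hN : N = 3 ∨ 6 ≤ N) (hd : 0 < d)
include hsq hanti hN hd

omit hN hd in
theorem so1_br {x y : Matrix (Fin d) (Fin d) ℂ} (hx : x ∈ so1 E) (hy : y ∈ so1 E) :
    x * y - y * x ∈ so1 E := soM_br hsq hanti hx hy

theorem so1_rigid : Rigid (so1 E) := by
  rcases hN with rfl | h6
  · haveI : Nonempty (Fin d) := ⟨⟨0, hd⟩⟩
    refine rigid_of_equiv (Matrix.toLinAlgEquiv' (R := ℂ) (n := Fin d)) ?_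
    have hE := enM_CE hsq hanti
    rw [so1_map, soE_three hE]
    intro 𝔥 h1 h2 h3
    exact (qq_of hE).rigid 𝔥 h1 h2 h3
  · refine soM_rigid hsq hanti fun i => ?_
    simpa using h6

theorem so1_simple (𝔧 : Submodule ℂ (Matrix (Fin d) (Fin d) ℂ)) (hle : 𝔧 ≤ so1 E)
    (hbr : ∀ x ∈ so1 E, ∀ y ∈ 𝔧, x * y - y * x ∈ 𝔧) : 𝔧 = ⊥ ∨ 𝔧 = so1 E := by
  haveI : Nonempty (Fin d) := ⟨⟨0, hd⟩⟩
  have hE := enM_CE hsq hanti
  let f := (Matrix.toLinAlgEquiv' (R := ℂ) (n := Fin d))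
  have hinj : Function.Injective f.toLinearMap := f.injective
  have key : 𝔧.map f.toLinearMap = ⊥ ∨ 𝔧.map f.toLinearMap = SP.soE (enM E) := by
    have h1 : 𝔧.map f.toLinearMap ≤ SP.soE (enM E) := by
      rw [← so1_map]
      exact Submodule.map_mono hle
    have h2 : ∀ x ∈ SP.soE (enM E), ∀ y ∈ 𝔧.map f.toLinearMap,
        x * y - y * x ∈ 𝔧.map f.toLinearMap := by
      rw [← so1_map]
      rintro _ ⟨x, hx, rfl⟩ _ ⟨y, hy, rfl⟩
      refine ⟨x * y - y * x, hbr x hx y hy, ?_⟩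
      change f (x * y - y * x) = f x * f y - f y * f x
      rw [map_sub, map_mul, map_mul]
    rcases hN with rfl | h6
    · rw [soE_three hE] at h1 h2 ⊢
      exact (qq_of hE).simple _ h1 h2
    · exact SP.so_simple (by omega) hE _ h1 h2
  rcases key with h | h
  · left
    exact Submodule.map_injective_of_injective hinj (by rw [h, Submodule.map_bot])
  · right
    rw [← so1_map] at h
    exact Submodule.map_injective_of_injective hinj h

theorem so1_perfect : so1 E ≤ Submodule.span ℂ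
    {z | ∃ x ∈ so1 E, ∃ y ∈ so1 E, z = x * y - y * x} := by
  haveI : Nonempty (Fin d) := ⟨⟨0, hd⟩⟩
  have hE := enM_CE hsq hanti
  let f := (Matrix.toLinAlgEquiv' (R := ℂ) (n := Fin d))
  have h1 : SP.soE (enM E) ≤ (Submodule.span ℂ
      {z | ∃ x ∈ so1 E, ∃ y ∈ so1 E, z = x * y - y * x}).map f.toLinearMap := by
    refine (SP.so_perfect (by omega) hE).trans ?_
    rw [Submodule.span_le]
    rintro _ ⟨x, hx, y, hy, rfl⟩
    rw [← so1_map] at hx hy
    obtain ⟨x, hx, rfl⟩ := hx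
    obtain ⟨y, hy, rfl⟩ := hy
    refine ⟨x * y - y * x, Submodule.subset_span ⟨x, hx, y, hy, rfl⟩, ?_⟩
    change f (x * y - y * x) = f x * f y - f y * f x
    rw [map_sub, map_mul, map_mul]
  intro x hx
  obtain ⟨y, hy, h2⟩ := h1 (mem_so1.1 hx)
  rw [← f.injective h2]
  exact hy

/-- Elements of the orthogonal Lie algebra are not scalars, except for zero. -/
theorem so1_scalar {t : ℂ} (h : t • (1 : Matrix (Fin d) (Fin d) ℂ) ∈ so1 E) : t = 0 := by
  haveI : Nonempty (Fin d) := ⟨⟨0, hd⟩⟩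
  by_contra ht
  have h1 : (1 : Matrix (Fin d) (Fin d) ℂ) ∈ so1 E := by
    have h2 := (so1 E).smul_mem t⁻¹ h
    rwa [smul_smul, inv_mul_cancel₀ ht, one_smul] at h2
  -- the scalars are an ideal
  have h3 := so1_simple hsq hanti hN hd (Submodule.span ℂ {(1 : Matrix (Fin d) (Fin d) ℂ)}) (by
    rw [Submodule.span_le]
    rintro _ rfl
    exact h1) (by
    intro x _ y hy
    obtain ⟨c, rfl⟩ := Submodule.mem_span_singleton.1 hy
    rw [mul_smul_comm, smul_mul_assoc, mul_one, one_mul, sub_self]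
    exact Submodule.zero_mem _)
  have hne : (1 : Matrix (Fin d) (Fin d) ℂ) ≠ 0 := one_ne_zero
  rcases h3 with h3 | h3
  · have h4 : (1 : Matrix (Fin d) (Fin d) ℂ) ∈ Submodule.span ℂ {(1 : Matrix (Fin d) (Fin d) ℂ)} :=
      Submodule.mem_span_singleton_self _
    rw [h3, Submodule.mem_bot] at h4
    exact hne h4
  · -- everything is scalar, so the brackets are zero
    have h4 : so1 E ≤ ⊥ := by
      refine (so1_perfect hsq hanti hN hd).trans ?_
      rw [Submodule.span_le]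
      rintro _ ⟨x, hx, y, hy, rfl⟩
      rw [← h3] at hx
      obtain ⟨c, rfl⟩ := Submodule.mem_span_singleton.1 hx
      change _ = _
      rw [mul_smul_comm, smul_mul_assoc, mul_one, one_mul, sub_self]
    exact hne ((Submodule.mem_bot ℂ).1 (h4 h1))

/-- Elements which annihilate a space of columns which is stable annihilate it only if it is
zero, or are zero. -/
theorem so1_kill {m : ℕ} {Z : Matrix (Fin d) (Fin m) ℂ}
    (hst : ∀ x ∈ so1 E, ∃ y : Matrix (Fin m) (Fin m) ℂ, x * Z = Z * y)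
    {x : Matrix (Fin d) (Fin d) ℂ} (hx : x ∈ so1 E) (hx0 : x ≠ 0) (h : x * Z = 0) : Z = 0 := by
  let 𝔧 : Submodule ℂ (Matrix (Fin d) (Fin d) ℂ) :=
    { carrier := {x | x ∈ so1 E ∧ x * Z = 0}
      zero_mem' := ⟨Submodule.zero_mem _, Matrix.zero_mul _⟩
      add_mem' := fun {a b} ha hb => ⟨Submodule.add_mem _ ha.1 hb.1, by
        rw [Matrix.add_mul, ha.2, hb.2, add_zero]⟩
      smul_mem' := fun c a ha => ⟨Submodule.smul_mem _ c ha.1, by
        rw [Matrix.smul_mul, ha.2, smul_zero]⟩ }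
  have h1 := so1_simple hsq hanti hN hd 𝔧 (fun x hx => hx.1) (fun x hx y hy => by
    refine ⟨so1_br hsq hanti hx hy.1, ?_⟩
    obtain ⟨w, hw⟩ := hst x hx
    rw [Matrix.sub_mul, Matrix.mul_assoc, hy.2, Matrix.mul_zero, Matrix.mul_assoc, hw,
      ← Matrix.mul_assoc, hy.2, Matrix.zero_mul, sub_zero])
  rcases h1 with h1 | h1
  · have h2 : x ∈ 𝔧 := ⟨hx, h⟩
    rw [h1, Submodule.mem_bot] at h2
    exact absurd h2 hx0
  · obtain ⟨i, j, hij⟩ : ∃ i j : Fin N, i ≠ j := ⟨⟨0, by omega⟩, ⟨1, by omega⟩, by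
      intro h'
      exact absurd (congrArg Fin.val h') (by norm_num)⟩
    have h2 : E i * E j ∈ 𝔧 := by
      rw [h1]
      exact Submodule.subset_span ⟨i, j, hij, rfl, rfl⟩
    have h3 : E j * (E i * (E i * E j * Z)) = Z := by
      rw [← Matrix.mul_assoc, ← Matrix.mul_assoc (E j * E i), Matrix.mul_assoc (E j) (E i) (E i * E j),
        ← Matrix.mul_assoc (E i) (E i) (E j), hsq, Matrix.one_mul, hsq, Matrix.one_mul]
    rw [← h3, h2.2, Matrix.mul_zero, Matrix.mul_zero]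

/-- The same for rows. -/
theorem so1_kill' {m : ℕ} {Z : Matrix (Fin m) (Fin d) ℂ}
    (hst : ∀ x ∈ so1 E, ∃ y : Matrix (Fin m) (Fin m) ℂ, Z * x = y * Z)
    {x : Matrix (Fin d) (Fin d) ℂ} (hx : x ∈ so1 E) (hx0 : x ≠ 0) (h : Z * x = 0) : Z = 0 := by
  let 𝔧 : Submodule ℂ (Matrix (Fin d) (Fin d) ℂ) :=
    { carrier := {x | x ∈ so1 E ∧ Z * x = 0}
      zero_mem' := ⟨Submodule.zero_mem _, Matrix.mul_zero _⟩
      add_mem' := fun {a b} ha hb => ⟨Submodule.add_mem _ ha.1 hb.1, by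
        rw [Matrix.mul_add, ha.2, hb.2, add_zero]⟩
      smul_mem' := fun c a ha => ⟨Submodule.smul_mem _ c ha.1, by
        rw [Matrix.mul_smul, ha.2, smul_zero]⟩ }
  have h1 := so1_simple hsq hanti hN hd 𝔧 (fun x hx => hx.1) (fun x hx y hy => by
    refine ⟨so1_br hsq hanti hx hy.1, ?_⟩
    obtain ⟨w, hw⟩ := hst x hx
    rw [Matrix.mul_sub, ← Matrix.mul_assoc, hw, Matrix.mul_assoc, hy.2, Matrix.mul_zero,
      ← Matrix.mul_assoc, hy.2, Matrix.zero_mul, sub_zero])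
  rcases h1 with h1 | h1
  · have h2 : x ∈ 𝔧 := ⟨hx, h⟩
    rw [h1, Submodule.mem_bot] at h2
    exact absurd h2 hx0
  · obtain ⟨i, j, hij⟩ : ∃ i j : Fin N, i ≠ j := ⟨⟨0, by omega⟩, ⟨1, by omega⟩, by
      intro h'
      exact absurd (congrArg Fin.val h') (by norm_num)⟩
    have h2 : E i * E j ∈ 𝔧 := by
      rw [h1]
      exact Submodule.subset_span ⟨i, j, hij, rfl, rfl⟩
    have h3 : Z * (E i * E j) * E j * E i = Z := by
      rw [Matrix.mul_assoc, Matrix.mul_assoc, Matrix.mul_assoc (E i) (E j),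
        ← Matrix.mul_assoc (E j) (E j), hsq, Matrix.one_mul, hsq, Matrix.mul_one]
    rw [← h3, h2.2, Matrix.zero_mul, Matrix.zero_mul]

end Pool.Agent.L0h14.QU
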