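import Pool.Agent.L0h14.QU.Kill

set_option autoImplicit false
set_option linter.unusedSectionVars false
set_option linter.unusedVariables false

/-!
# The centre
-/

open Module Matrix

noncomputable section

namespace Pool.Agent.L0h14.QU

open Pool.Agent.Y102 Pool.Agent.N208.AM Pool.Agent.N192.GP Pool.Agent.N113.BT

section Gen

variable {n : ℕ} {U V : Submodule ℚ (Module.End ℚ (Fin n → ℚ))}

theorem RS_sup : RS (U ⊔ V) ≤ RS U ⊔ RS V := by
  rw [RS, Submodule.span_le]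
  rintro _ ⟨X, hX, rfl⟩
  obtain ⟨a, ha, b, hb, rfl⟩ := Submodule.mem_sup.1 hX
  rw [toR_add]
  exact Submodule.add_mem_sup (toR_mem ha) (toR_mem hb)

end Gen

variable {g k : ℕ}

theorem le_cen {A : AbVar g} : A.NA ≤ cenA A ⊔ der A.NA := by
  intro X hX
  obtain ⟨Z, hZ, d, hd, rfl, hc⟩ := full_NA.dec hX
  exact Submodule.add_mem_sup ⟨hZ, hc⟩ hd

theorem trace_cen {A : AbVar g} {X Z : Module.End ℚ A.H1} (hX : X ∈ der A.NA)
    (hZ : Z ∈ cenA A) : LinearMap.trace ℚ A.H1 (X * Z) = 0 := by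
  unfold der at hX
  induction hX using Submodule.span_induction with
  | mem X hX =>
    obtain ⟨X, hX, Y, hY, rfl⟩ := hX
    rw [sub_mul, map_sub, mul_assoc Y X Z, LinearMap.trace_mul_comm ℚ Y (X * Z), mul_assoc X Z Y,
      hZ.2 Y hY, mul_assoc X Y Z, sub_self]
  | zero => rw [zero_mul, map_zero]
  | add a b _ _ ha hb => rw [add_mul, map_add, ha, hb, add_zero]
  | smul c a _ ha => rw [smul_mul_assoc, map_smul, ha, smul_zero]

theorem cen_der {A : AbVar g} {X : Module.End ℚ A.H1} (hX : X ∈ der A.NA) (hZ : X ∈ cenA A) :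
    X = 0 :=
  full_NA.pos hZ.1 (fun Y hY => (hZ.2 Y hY).symm) (trace_cen hX hZ)

theorem CS_cen {A : AbVar g} {x y : Matrix (Fin (2 * g)) (Fin (2 * g)) ℂ} (hx : x ∈ CS (cenA A))
    (hy : y ∈ CS A.NA) : x * y = y * x := by
  refine CS_comm (t := x) (fun X hX => ?_) hy
  refine (CS_comm (t := toC X) (fun Z hZ => ?_) hx).symm
  rw [← toC_mul', ← toC_mul', hZ.2 X hX]

theorem exists_Jc (A : AbVar g) : ∃ Jc ∈ RS (cenA A), ∃ Jd ∈ RS (der A.NA), Jc + Jd = JR A :=
  Submodule.mem_sup.1 (RS_sup (RS_mono le_cen (JR_mem A)))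

/-- The matrices which commute with the derived algebra and with `R`, supported on the image
of `R`. -/
structure Cm {A : AbVar g} (q : Submodule ℚ (Module.End ℚ A.H1)) (R : Module.End ℚ A.H1) (D : ℚ)
    (T : Matrix (Fin (2 * g)) (Fin (2 * g)) ℂ) : Prop where
  der : ∀ y ∈ CS (Pool.Agent.Y102.der q), T * y = y * T
  com : T * toC R = toC R * T
  sup : toC R * toC R * T = -((D : ℂ) • T)

theorem cj_cj {n : ℕ} (y : Matrix (Fin n) (Fin n) ℂ) : cj (cj y) = y := by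
  ext i j
  simp

theorem cj_toC {n : ℕ} (X : Module.End ℚ (Fin n → ℚ)) : cj (toC X) = toC X := by
  rw [← cR_toR, cj_cR]

theorem Cm.cj' {A : AbVar g} {q : Submodule ℚ (Module.End ℚ A.H1)} {R : Module.End ℚ A.H1} {D : ℚ}
    {T : Matrix (Fin (2 * g)) (Fin (2 * g)) ℂ} (hT : Cm q R D T) : Cm q R D (cj T) where
  der := by
    intro y hy
    have h1 := congrArg cj (hT.der _ (cj_mem hy))
    rw [cj_mul, cj_mul, cj_cj] at h1
    exact h1
  com := by
    have h1 := congrArg cj hT.com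
    rw [cj_mul, cj_mul, cj_toC] at h1
    exact h1
  sup := by
    have h1 := congrArg cj hT.sup
    rw [cj_mul, cj_mul, cj_toC] at h1
    rw [h1]
    ext i j
    simp

/-- Rational matrices. -/
theorem Cm.of_rat {A : AbVar g} {q : Submodule ℚ (Module.End ℚ A.H1)} {R : Module.End ℚ A.H1}
    {D : ℚ} {P : Module.End ℚ A.H1} (h1 : ∀ Y ∈ Pool.Agent.Y102.der q, P * Y = Y * P)
    (h2 : P * R = R * P) (h3 : R * R * P = -(D • P)) : Cm q R D (toC P) where
  der := by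
    intro y hy
    refine CS_comm (fun X hX => ?_) hy
    rw [← toC_mul', ← toC_mul', h1 X hX]
  com := by rw [← toC_mul', ← toC_mul', h2]
  sup := by
    rw [← toC_mul', ← toC_mul', h3]
    ext i j
    simp [toC]

/-- The subspace of the centre of the elements which commute with these matrices. -/
def L1 (A : AbVar g) (q : Submodule ℚ (Module.End ℚ A.H1)) (R : Module.End ℚ A.H1) (D : ℚ) :
    Submodule ℚ (Module.End ℚ A.H1) where
  carrier := {X | X ∈ cenA A ∧ ∀ P : Module.End ℚ A.H1,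
    (∀ Y ∈ Pool.Agent.Y102.der q, P * Y = Y * P) → P * R = R * P → R * R * P = -(D • P) →
      X * P = P * X}
  zero_mem' := ⟨(cenA A).zero_mem, fun P _ _ _ => by rw [zero_mul, mul_zero]⟩
  add_mem' := fun {a b} ha hb => ⟨(cenA A).add_mem ha.1 hb.1, fun P h1 h2 h3 => by
    rw [add_mul, mul_add, ha.2 P h1 h2 h3, hb.2 P h1 h2 h3]⟩
  smul_mem' := fun c a ha => ⟨(cenA A).smul_mem c ha.1, fun P h1 h2 h3 => by
    rw [smul_mul_assoc, mul_smul_comm, ha.2 P h1 h2 h3]⟩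

namespace Sys

variable {A : AbVar g} {S : Part g k} {C : Set (Fin k)} {R : Module.End ℚ A.H1} {D : ℚ}
  (h : Sys A S C R D)
include h

/-- The central part of the complex structure. -/
theorem Jc_cpt {Jc Jd : Matrix (Fin (2 * g)) (Fin (2 * g)) ℝ} (hc : Jc ∈ RS (cenA A))
    (hd : Jd ∈ RS (der A.NA)) (e : Jc + Jd = JR A) {s : Fin k} (hs : s ∈ C) :
    S.ac s (cR Jc) = Complex.I • 1 := by
  have h1 : S.ac s (cR (JR A)) = Complex.I • 1 := by
    unfold Part.ac
    rw [Matrix.mul_assoc, h.cpt s hs, Matrix.mul_smul, h.qp]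
  rw [← e, cR_add, ac_add] at h1
  have hcN : cR Jc ∈ CS A.NA := CS_mono cenA_le (cR_mem hc)
  have h2 : S.ac s (cR Jd) = 0 := by
    refine so1_center (h.sq s) (h.anti s) (h.rank s) (h.pos s) (h.ac_der s (cR_mem hd))
      fun y hy => ?_
    obtain ⟨w, hw, rfl⟩ := h.surj full_NA s hy
    have hwN : w ∈ CS A.NA := CS_mono hdN hw
    have h3 : S.ac s (cR Jd) = Complex.I • 1 - S.ac s (cR Jc) := by rw [← h1]; abel
    rw [h3, Matrix.sub_mul, Matrix.mul_sub, ← h.ac_mul s hwN, ← h.ac_mul s hcN,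
      CS_cen (cR_mem hc) hwN, Matrix.smul_mul, Matrix.mul_smul, Matrix.one_mul, Matrix.mul_one]
  rw [h2, add_zero] at h1
  exact h1

theorem Jc_ncpt {Jc Jd : Matrix (Fin (2 * g)) (Fin (2 * g)) ℝ} (hc : Jc ∈ RS (cenA A))
    (hd : Jd ∈ RS (der A.NA)) (e : Jc + Jd = JR A) {s : Fin k} (hs : s ∉ C) :
    S.ac s (cR Jc) = 0 := by
  have hcN : cR Jc ∈ CS A.NA := CS_mono cenA_le (cR_mem hc)
  refine so1_center (h.sq s) (h.anti s) (h.rank s) (h.pos s) ?_ fun y hy => ?_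
  · have h1 := h.ncpt s hs
    change S.ac s (cR (JR A)) ∈ _ at h1
    rw [← e, cR_add, ac_add] at h1
    have h2 := Submodule.sub_mem _ h1 (h.ac_der s (cR_mem hd))
    rwa [add_sub_cancel_right] at h2
  · obtain ⟨w, hw, rfl⟩ := h.surj full_NA s hy
    have hwN : w ∈ CS A.NA := CS_mono hdN hw
    rw [← h.ac_mul s hwN, ← h.ac_mul s hcN, CS_cen (cR_mem hc) hwN]

theorem ep_idem : (∑ s, S.P s * S.Q s) * (∑ s, S.P s * S.Q s) = ∑ s, S.P s * S.Q s := by
  rw [Finset.sum_mul_sum]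
  refine Finset.sum_congr rfl fun s _ => ?_
  rw [Finset.sum_eq_single s]
  · exact h.idem s
  · intro t _ hts
    rw [Matrix.mul_assoc, ← Matrix.mul_assoc (S.Q s), h.qp' s t (Ne.symm hts), Matrix.zero_mul,
      Matrix.mul_zero]
  · intro hs
    exact absurd (Finset.mem_univ s) hs

theorem ep_comm {T : Matrix (Fin (2 * g)) (Fin (2 * g)) ℂ} (hT : T * toC R = toC R * T) :
    (∑ s, S.P s * S.Q s) * T = T * ∑ s, S.P s * S.Q s := by
  rw [h.sum, Matrix.smul_mul, Matrix.mul_smul, Matrix.add_mul, Matrix.mul_add, Matrix.smul_mul,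
    Matrix.mul_smul, hT, Matrix.mul_assoc, ← hT, ← Matrix.mul_assoc, ← hT, Matrix.mul_assoc]

theorem split {T : Matrix (Fin (2 * g)) (Fin (2 * g)) ℂ}
    (hT : toC R * toC R * T = -((D : ℂ) • T)) :
    T = (∑ s, S.P s * S.Q s) * T + cj (∑ s, S.P s * S.Q s) * T := by
  have hD : (D : ℂ) ≠ 0 := by
    have := h.D0
    exact_mod_cast this.ne'
  have h1 : cj (∑ s, S.P s * S.Q s) = (-(1 / (2 * (D : ℂ)))) •
      (toC R * toC R - (Complex.I * (Real.sqrt (D : ℝ) : ℂ)) • toC R) := by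
    rw [h.sum]
    have e1 : ∀ (c : ℂ) (x : Matrix (Fin (2 * g)) (Fin (2 * g)) ℂ),
        cj (c • x) = (starRingEnd ℂ c) • cj x := by
      intro c x
      ext i j
      simp
    have e2 : ∀ x y : Matrix (Fin (2 * g)) (Fin (2 * g)) ℂ, cj (x + y) = cj x + cj y := by
      intro x y
      ext i j
      simp
    have e3 : (starRingEnd ℂ) (-(1 / (2 * (D : ℂ)))) = -(1 / (2 * (D : ℂ))) := by
      rw [map_neg, map_div₀, map_one, map_mul, map_ratCast, map_ofNat]
    have e4 : (starRingEnd ℂ) (Complex.I * (Real.sqrt (D : ℝ) : ℂ)) =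
        -(Complex.I * (Real.sqrt (D : ℝ) : ℂ)) := by
      rw [map_mul, Complex.conj_I, Complex.conj_ofReal, neg_mul]
    rw [e1, e2, e1, cj_mul, cj_toC, e3, e4]
    congr 1
    rw [neg_smul, ← sub_eq_add_neg]
  rw [h1, h.sum, ← Matrix.add_mul, ← smul_add]
  have h2 : toC R * toC R + (Complex.I * (Real.sqrt (D : ℝ) : ℂ)) • toC R +
      (toC R * toC R - (Complex.I * (Real.sqrt (D : ℝ) : ℂ)) • toC R) =
      (2 : ℂ) • (toC R * toC R) := by
    rw [two_smul]
    abel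
  rw [h2, smul_smul, Matrix.smul_mul, hT, smul_neg, smul_smul, ← neg_smul]
  have h3 : -(-(1 / (2 * (D : ℂ))) * 2 * (D : ℂ)) = 1 := by
    field_simp
  rw [h3, one_smul]

variable {q : Submodule ℚ (Module.End ℚ A.H1)} (hq : A.Full q)
include hq

/-- The part on the summands. -/
theorem B0 {Jc Jd : Matrix (Fin (2 * g)) (Fin (2 * g)) ℝ} (hc : Jc ∈ RS (cenA A))
    (hd : Jd ∈ RS (der A.NA)) (e : Jc + Jd = JR A)
    {T : Matrix (Fin (2 * g)) (Fin (2 * g)) ℂ} (hT : Cm q R D T) :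
    (∑ s, S.P s * S.Q s) * T * cR Jc = cR Jc * ((∑ s, S.P s * S.Q s) * T) := by
  classical
  have hcN : cR Jc ∈ CS A.NA := CS_mono cenA_le (cR_mem hc)
  let c : Fin k → ℂ := fun s => if s ∈ C then Complex.I else 0
  have hac : ∀ s, S.ac s (cR Jc) = c s • 1 := by
    intro s
    by_cases hs : s ∈ C
    · rw [h.Jc_cpt hc hd e hs]
      simp only [c, if_pos hs]
    · rw [h.Jc_ncpt hc hd e hs]
      simp only [c, if_neg hs, zero_smul]
  have h1 : ∀ s, cR Jc * S.P s = c s • S.P s := fun s => by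
    rw [h.xP s hcN, hac, Matrix.mul_smul, Matrix.mul_one]
  have h2 : ∀ s, S.Q s * cR Jc = c s • S.Q s := fun s => by
    rw [h.Qx s hcN, hac, Matrix.smul_mul, Matrix.one_mul]
  have h3 : (∑ s, S.P s * S.Q s) * T = ∑ s, ∑ t, S.P s * (S.Q s * T * S.P t) * S.Q t := by
    rw [← h.ep_idem, Matrix.mul_assoc, h.ep_comm hT.com, ← Matrix.mul_assoc, Matrix.sum_mul,
      Matrix.sum_mul]
    refine Finset.sum_congr rfl fun s _ => ?_
    rw [Matrix.mul_sum]
    refine Finset.sum_congr rfl fun t _ => ?_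
    simp only [Matrix.mul_assoc]
  rw [h3, Matrix.sum_mul, Matrix.mul_sum]
  refine Finset.sum_congr rfl fun s _ => ?_
  rw [Matrix.sum_mul, Matrix.mul_sum]
  refine Finset.sum_congr rfl fun t _ => ?_
  have h4 : S.P s * (S.Q s * T * S.P t) * S.Q t * cR Jc =
      c t • (S.P s * (S.Q s * T * S.P t) * S.Q t) := by
    rw [Matrix.mul_assoc _ (S.Q t), h2, Matrix.mul_smul]
  have h5 : cR Jc * (S.P s * (S.Q s * T * S.P t) * S.Q t) =
      c s • (S.P s * (S.Q s * T * S.P t) * S.Q t) := by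
    rw [← Matrix.mul_assoc, ← Matrix.mul_assoc, h1, Matrix.smul_mul, Matrix.smul_mul]
  rw [h4, h5]
  by_cases hs : s ∈ C
  · by_cases ht : t ∈ C
    · simp only [c, if_pos hs, if_pos ht]
    · rw [h.kill2 hq hs ht hT.der, Matrix.mul_zero, Matrix.zero_mul, smul_zero, smul_zero]
  · by_cases ht : t ∈ C
    · rw [h.kill1 hq ht hs hT.der, Matrix.mul_zero, Matrix.zero_mul, smul_zero, smul_zero]
    · simp only [c, if_neg hs, if_neg ht]

theorem B1 {Jc Jd : Matrix (Fin (2 * g)) (Fin (2 * g)) ℝ} (hc : Jc ∈ RS (cenA A))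
    (hd : Jd ∈ RS (der A.NA)) (e : Jc + Jd = JR A)
    {T : Matrix (Fin (2 * g)) (Fin (2 * g)) ℂ} (hT : Cm q R D T) : T * cR Jc = cR Jc * T := by
  have h1 := h.B0 hq hc hd e hT
  have h2 := congrArg cj (h.B0 hq hc hd e hT.cj')
  rw [cj_mul, cj_mul, cj_mul, cj_mul, cj_cj, cj_cR] at h2
  rw [h.split hT.sup, Matrix.add_mul, Matrix.mul_add, h1, h2]

theorem in_L1 {X : Module.End ℚ A.H1} (hX : ∀ L : Submodule ℚ (Module.End ℚ A.H1),
    der A.NA ≤ L → L ≤ A.NA → JR A ∈ RS L → X ∈ L) : X ∈ der A.NA ⊔ L1 A q R D := by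
  obtain ⟨Jc, hc, Jd, hd, e⟩ := exists_Jc A
  refine hX (der A.NA ⊔ L1 A q R D) le_sup_left
    (sup_le hdN fun X (hX : X ∈ L1 A q R D) => hX.1.1) ?_
  rw [← e]
  refine Submodule.add_mem _ ?_ (RS_mono le_sup_left hd)
  refine RS_mono le_sup_right (mem_RS fun lam => ⟨cRr_mem hc lam, fun P h1 h2 h3 => ?_⟩)
  have h4 := h.B1 hq hc hd e (Cm.of_rat h1 h2 h3)
  rw [← cR_toR, ← cR_mul, ← cR_mul] at h4
  have h5 := cR_inj h4
  rw [← cRr_mul_right, ← cRr_mul_left, h5]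

omit hq in
/-- The centre acts on the summands by scalars. -/
theorem cen_scalar (s : Fin k) {Z : Module.End ℚ A.H1} (hZ : Z ∈ cenA A) {c : ℂ}
    (hc : S.ac s (toC Z) + c • 1 ∈ so1 (S.E s)) : S.ac s (toC Z) = (-c) • 1 := by
  have hN : toC Z ∈ CS A.NA := toC_mem hZ.1
  have h1 := so1_center (h.sq s) (h.anti s) (h.rank s) (h.pos s) hc fun y hy => by
    obtain ⟨w, hw, rfl⟩ := h.surj full_NA s hy
    have hwN : w ∈ CS A.NA := CS_mono hdN hw
    rw [Matrix.add_mul, Matrix.mul_add, Matrix.smul_mul, Matrix.mul_smul, Matrix.one_mul,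
      Matrix.mul_one, ← h.ac_mul s hwN, ← h.ac_mul s hN, CS_cen (toC_mem hZ) hwN]
  rw [neg_smul]
  exact eq_neg_of_add_eq_zero_left h1

/-- The scalars of linked summands on the Hodge part. -/
theorem same_L1 {s t : Fin k} {M : Matrix (Fin (S.d t)) (Fin (S.d s)) ℂ} (hM : M ≠ 0)
    (hT : Cm q R D (S.P t * M * S.Q s)) {l : Module.End ℚ A.H1} (hl : l ∈ L1 A q R D) :
    ∃ c : ℂ, S.ac s (toC l) = c • 1 ∧ S.ac t (toC l) = c • 1 := by
  have h1 : (S.P t * M * S.Q s) * toC l = toC l * (S.P t * M * S.Q s) := by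
    refine comm_of_cC fun lam => (hl.2 _ (fun Y hY => ?_) ?_ ?_).symm
    · rw [← cC_mul_right, ← cC_mul_left, hT.der _ (toC_mem hY)]
    · rw [← cC_mul_right, ← cC_mul_left, hT.com]
    · rw [mul_assoc, ← cC_mul_left, ← cC_mul_left, ← Matrix.mul_assoc, hT.sup]
      have h1 : -((D : ℂ) • (S.P t * M * S.Q s)) =
          (((-D : ℚ) : ℚ) : ℂ) • (S.P t * M * S.Q s) := by
        rw [Rat.cast_neg, neg_smul]
      rw [h1, cC_smul]
      exact neg_smul D (cC lam (S.P t * M * S.Q s))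
  have hlN : toC l ∈ CS A.NA := toC_mem hl.1.1
  obtain ⟨c, hc⟩ := h.act s l hl.1.1
  obtain ⟨c', hc'⟩ := h.act t l hl.1.1
  have e1 := h.cen_scalar s hl.1 hc
  have e2 := h.cen_scalar t hl.1 hc'
  have e3 : (-c) • M = (-c') • M := by
    have h2 := congrArg (fun m => S.Q t * m * S.P s) h1
    have h3 : S.Q t * (S.P t * M * S.Q s * toC l) * S.P s = (-c) • M := by
      calc S.Q t * (S.P t * M * S.Q s * toC l) * S.P s =
          (S.Q t * S.P t) * M * (S.Q s * toC l * S.P s) := by simp only [Matrix.mul_assoc]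
        _ = M * S.ac s (toC l) := by rw [h.qp, Matrix.one_mul]; rfl
        _ = (-c) • M := by rw [e1, Matrix.mul_smul, Matrix.mul_one]
    have h4 : S.Q t * (toC l * (S.P t * M * S.Q s)) * S.P s = (-c') • M := by
      calc S.Q t * (toC l * (S.P t * M * S.Q s)) * S.P s =
          (S.Q t * toC l * S.P t) * M * (S.Q s * S.P s) := by simp only [Matrix.mul_assoc]
        _ = S.ac t (toC l) * M := by rw [h.qp, Matrix.mul_one]; rfl
        _ = (-c') • M := by rw [e2, Matrix.smul_mul, Matrix.one_mul]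
    rw [← h3, ← h4]
    exact h2
  have e4 : -c = -c' := by
    have h2 : ((-c) - (-c')) • M = 0 := by rw [sub_smul, e3, sub_self]
    rcases smul_eq_zero.1 h2 with h2 | h2
    · exact sub_eq_zero.1 h2
    · exact absurd h2 hM
  exact ⟨-c, e1, by rw [e4]; exact e2⟩

theorem same_NA {s t : Fin k} (hst : s ≠ t) (hr : S.N s = S.N t) {M : Matrix (Fin (S.d t)) (Fin (S.d s)) ℂ}
    (hM : M ≠ 0) (hT : Cm q R D (S.P t * M * S.Q s)) {X : Module.End ℚ A.H1} (hX : X ∈ A.NA) :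
    S.Same s t X := by
  refine h.same s t hst hr (fun X hX => ?_) X hX
  obtain ⟨d, hd, l, hl, rfl⟩ := Submodule.mem_sup.1 (h.in_L1 hq hX)
  obtain ⟨c, h1, h2⟩ := h.same_L1 hq hM hT hl
  have e : toC (d + l) = toC d + toC l := by ext i j; simp [toC]
  refine ⟨-c, ?_, ?_⟩
  · rw [e, ac_add, h1, neg_smul, add_neg_cancel_right]
    exact h.ac_der s (toC_mem hd)
  · rw [e, ac_add, h2, neg_smul, add_neg_cancel_right]
    exact h.ac_der t (toC_mem hd)

theorem Cm_cen {s t : Fin k} (hst : s ≠ t) (hr : S.N s = S.N t) {M : Matrix (Fin (S.d t)) (Fin (S.d s)) ℂ}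
    (hM : M ≠ 0) (hT : Cm q R D (S.P t * M * S.Q s)) {Z : Module.End ℚ A.H1} (hZ : Z ∈ cenA A) :
    (S.P t * M * S.Q s) * toC Z = toC Z * (S.P t * M * S.Q s) := by
  obtain ⟨c, h1, h2⟩ := h.same_NA hq hst hr hM hT hZ.1
  have e1 := h.cen_scalar s hZ h1
  have e2 := h.cen_scalar t hZ h2
  have hN : toC Z ∈ CS A.NA := toC_mem hZ.1
  have e3 : (S.P t * M * S.Q s) * toC Z = (-c) • (S.P t * M * S.Q s) := by
    rw [Matrix.mul_assoc, h.Qx s hN, e1, Matrix.smul_mul, Matrix.one_mul, Matrix.mul_smul]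
  have e4 : toC Z * (S.P t * M * S.Q s) = (-c) • (S.P t * M * S.Q s) := by
    rw [← Matrix.mul_assoc, ← Matrix.mul_assoc, h.xP t hN, e2, Matrix.mul_smul, Matrix.mul_one,
      Matrix.smul_mul, Matrix.smul_mul]
  rw [e3, e4]

/-- **The matrices commute with the Lie algebra.** -/
theorem Cm_NA {s t : Fin k} (hst : s ≠ t) (hr : S.N s = S.N t) {M : Matrix (Fin (S.d t)) (Fin (S.d s)) ℂ}
    (hM : M ≠ 0) (hT : Cm q R D (S.P t * M * S.Q s)) {X : Module.End ℚ A.H1} (hX : X ∈ A.NA) :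
    (S.P t * M * S.Q s) * toC X = toC X * (S.P t * M * S.Q s) := by
  have h1 : ∀ X ∈ q, (S.P t * M * S.Q s) * toC X = toC X * (S.P t * M * S.Q s) := by
    intro X hX
    obtain ⟨Z, hZ, d, hd, rfl, hc⟩ := hq.dec hX
    have h2 : Z ∈ cenA A := ⟨hq.le hZ, fun Y hY =>
      (hq.comm Z (fun W hW => (hc W hW).symm) Y hY).symm⟩
    have h3 : toC (Z + d) = toC Z + toC d := by ext i j; simp [toC]
    rw [h3, Matrix.mul_add, Matrix.add_mul, h.Cm_cen hq hst hr hM hT h2, hT.der _ (toC_mem hd)]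
  refine comm_of_cC fun lam => (hq.comm _ (fun Y hY => ?_) X hX).symm
  rw [← cC_mul_right, ← cC_mul_left, h1 Y hY]

/-- Different summands are not linked. -/
theorem Cm_zero {s t : Fin k} (hst : s ≠ t) (hr : S.N s = S.N t) {M : Matrix (Fin (S.d t)) (Fin (S.d s)) ℂ}
    (hT : Cm q R D (S.P t * M * S.Q s)) : M = 0 := by
  by_contra hM
  have hN : ∀ Y ∈ Algebra.adjoin ℂ (CS A.NA : Set (Matrix (Fin (2 * g)) (Fin (2 * g)) ℂ)),
      (S.P t * M * S.Q s) * Y = Y * (S.P t * M * S.Q s) ∧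
        Y * (S.P s * S.Q s) = S.P s * S.Q s * Y := by
    intro Y hY
    induction hY using Algebra.adjoin_induction with
    | mem y hy =>
      exact ⟨CS_comm (fun X hX => h.Cm_NA hq hst hr hM hT hX) hy, (h.comm s hy).symm⟩
    | algebraMap c =>
      exact ⟨(Algebra.commutes c _).symm, Algebra.commutes c _⟩
    | add a b _ _ ha hb =>
      refine ⟨?_, ?_⟩
      · rw [Matrix.mul_add, Matrix.add_mul, ha.1, hb.1]
      · rw [Matrix.add_mul, Matrix.mul_add, ha.2, hb.2]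
    | mul a b _ _ ha hb =>
      refine ⟨?_, ?_⟩
      · rw [← Matrix.mul_assoc, ha.1, Matrix.mul_assoc a, hb.1, ← Matrix.mul_assoc]
      · rw [Matrix.mul_assoc, hb.2, ← Matrix.mul_assoc, ha.2, Matrix.mul_assoc]
  have h3 : 3 ≤ S.N t := by
    rcases h.rank t with h | h <;> omega
  let i : Fin (S.N t) := ⟨0, by omega⟩
  let j : Fin (S.N t) := ⟨1, by omega⟩
  have hij : i ≠ j := by
    intro h'
    exact absurd (congrArg Fin.val h') (by norm_num [i, j])
  obtain ⟨Y, hY, e1, e2⟩ := h.sep t i j hij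
  obtain ⟨c1, c2⟩ := hN Y hY
  have e3 : (S.E t i * S.E t j) * M = 0 := by
    calc (S.E t i * S.E t j) * M = S.Q t * Y * S.P t * M * (S.Q s * S.P s) := by
          rw [e1, h.qp, Matrix.mul_one]
      _ = S.Q t * (Y * (S.P t * M * S.Q s)) * S.P s := by simp only [Matrix.mul_assoc]
      _ = S.Q t * ((S.P t * M * S.Q s) * Y) * S.P s := by rw [c1]
      _ = (S.Q t * S.P t) * M * (S.Q s * Y * S.P s) := by simp only [Matrix.mul_assoc]
      _ = 0 := by rw [e2 s hst, Matrix.mul_zero]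
  apply hM
  have e4 : (S.E t j * S.E t i) * ((S.E t i * S.E t j) * M) = M := by
    rw [← Matrix.mul_assoc, Matrix.mul_assoc (S.E t j), ← Matrix.mul_assoc (S.E t i) (S.E t i),
      h.sq, Matrix.one_mul, h.sq, Matrix.one_mul]
  rw [← e4, e3, Matrix.mul_zero]

end Sys

end Pool.Agent.L0h14.QU
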