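import Pool.Agent.L0h14.QU.Real

set_option autoImplicit false
set_option linter.unusedSectionVars false
set_option linter.unusedVariables false

/-!
# Rational components of real and complex matrices
-/

open Module Matrix

noncomputable section

namespace Pool.Agent.L0h14.QU

open Pool.Agent.Y102 Pool.Agent.N208.AM

variable {n : ℕ}

/-- The rational components of a complex matrix, as endomorphisms. -/
def cC (lam : ℂ →ₗ[ℚ] ℚ) (T : Matrix (Fin n) (Fin n) ℂ) : Module.End ℚ (Fin n → ℚ) :=
  Matrix.toLin' (T.map lam)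

/-- The rational components of a real matrix, as endomorphisms. -/
def cRr (lam : ℝ →ₗ[ℚ] ℚ) (T : Matrix (Fin n) (Fin n) ℝ) : Module.End ℚ (Fin n → ℚ) :=
  Matrix.toLin' (T.map lam)

theorem map_mul_right (lam : ℂ →ₗ[ℚ] ℚ) (T : Matrix (Fin n) (Fin n) ℂ)
    (X : Module.End ℚ (Fin n → ℚ)) :
    (T * toC X).map lam = T.map lam * LinearMap.toMatrix' X := by
  ext i j
  rw [Matrix.map_apply, Matrix.mul_apply, Matrix.mul_apply, map_sum]
  refine Finset.sum_congr rfl fun l _ => ?_
  rw [Matrix.map_apply, LinearMap.toMatrix'_apply]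
  have h1 : T i l * toC X l j = (X (Pi.single j 1) l) • T i l := by
    rw [Rat.smul_def, mul_comm]
    rfl
  rw [h1, map_smul, smul_eq_mul, mul_comm]

theorem map_mul_left (lam : ℂ →ₗ[ℚ] ℚ) (T : Matrix (Fin n) (Fin n) ℂ)
    (X : Module.End ℚ (Fin n → ℚ)) :
    (toC X * T).map lam = LinearMap.toMatrix' X * T.map lam := by
  ext i j
  rw [Matrix.map_apply, Matrix.mul_apply, Matrix.mul_apply, map_sum]
  refine Finset.sum_congr rfl fun l _ => ?_
  rw [Matrix.map_apply, LinearMap.toMatrix'_apply]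
  have h1 : toC X i l * T l j = (X (Pi.single l 1) i) • T l j := by
    rw [Rat.smul_def]
    rfl
  rw [h1, map_smul, smul_eq_mul]

theorem cC_mul_right (lam : ℂ →ₗ[ℚ] ℚ) (T : Matrix (Fin n) (Fin n) ℂ)
    (X : Module.End ℚ (Fin n → ℚ)) : cC lam (T * toC X) = cC lam T * X := by
  unfold cC
  rw [map_mul_right, Matrix.toLin'_mul, Matrix.toLin'_toMatrix']
  rfl

theorem cC_mul_left (lam : ℂ →ₗ[ℚ] ℚ) (T : Matrix (Fin n) (Fin n) ℂ)
    (X : Module.End ℚ (Fin n → ℚ)) : cC lam (toC X * T) = X * cC lam T := by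
  unfold cC
  rw [map_mul_left, Matrix.toLin'_mul, Matrix.toLin'_toMatrix']
  rfl

theorem cC_smul (lam : ℂ →ₗ[ℚ] ℚ) (c : ℚ) (T : Matrix (Fin n) (Fin n) ℂ) :
    cC lam (((c : ℚ) : ℂ) • T) = c • cC lam T := by
  unfold cC
  have h1 : (((c : ℚ) : ℂ) • T).map lam = c • T.map lam := by
    ext i j
    rw [Matrix.map_apply, Matrix.smul_apply, Matrix.smul_apply, Matrix.map_apply, smul_eq_mul,
      ← Rat.smul_def, map_smul]
  rw [h1, map_smul]

theorem eq_of_cC {T T' : Matrix (Fin n) (Fin n) ℂ} (h : ∀ lam, cC lam T = cC lam T') : T = T' := by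
  ext i j
  rw [← sub_eq_zero]
  refine (Module.forall_dual_apply_eq_zero_iff ℚ (T i j - T' i j)).1 fun lam => ?_
  have h1 := h lam
  unfold cC at h1
  have h2 := congrFun (congrFun (Matrix.toLin'.injective h1) i) j
  rw [Matrix.map_apply, Matrix.map_apply] at h2
  rw [map_sub, h2, sub_self]

/-- Commutation with complex matrices. -/
theorem comm_of_cC {X : Module.End ℚ (Fin n → ℚ)} {T : Matrix (Fin n) (Fin n) ℂ}
    (h : ∀ lam, cC lam T * X = X * cC lam T) : T * toC X = toC X * T :=
  eq_of_cC fun lam => by rw [cC_mul_right, cC_mul_left, h]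

theorem cRr_mul_right (lam : ℝ →ₗ[ℚ] ℚ) (T : Matrix (Fin n) (Fin n) ℝ)
    (X : Module.End ℚ (Fin n → ℚ)) : cRr lam (T * toR X) = cRr lam T * X := by
  have h0 : (T * toR X).map lam = T.map lam * LinearMap.toMatrix' X := by
    ext i j
    rw [Matrix.map_apply, Matrix.mul_apply, Matrix.mul_apply, map_sum]
    refine Finset.sum_congr rfl fun l _ => ?_
    rw [Matrix.map_apply, LinearMap.toMatrix'_apply]
    have h1 : T i l * toR X l j = (X (Pi.single j 1) l) • T i l := by
      rw [Rat.smul_def, mul_comm]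
      rfl
    rw [h1, map_smul, smul_eq_mul, mul_comm]
  unfold cRr
  rw [h0, Matrix.toLin'_mul, Matrix.toLin'_toMatrix']
  rfl

theorem cRr_mul_left (lam : ℝ →ₗ[ℚ] ℚ) (T : Matrix (Fin n) (Fin n) ℝ)
    (X : Module.End ℚ (Fin n → ℚ)) : cRr lam (toR X * T) = X * cRr lam T := by
  have h0 : (toR X * T).map lam = LinearMap.toMatrix' X * T.map lam := by
    ext i j
    rw [Matrix.map_apply, Matrix.mul_apply, Matrix.mul_apply, map_sum]
    refine Finset.sum_congr rfl fun l _ => ?_
    rw [Matrix.map_apply, LinearMap.toMatrix'_apply]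
    have h1 : toR X i l * T l j = (X (Pi.single l 1) i) • T l j := by
      rw [Rat.smul_def]
      rfl
    rw [h1, map_smul, smul_eq_mul]
  unfold cRr
  rw [h0, Matrix.toLin'_mul, Matrix.toLin'_toMatrix']
  rfl

/-- The rational components of an element of the real span. -/
theorem cRr_mem {S : Submodule ℚ (Module.End ℚ (Fin n → ℚ))} {y : Matrix (Fin n) (Fin n) ℝ}
    (hy : y ∈ RS S) (lam : ℝ →ₗ[ℚ] ℚ) : cRr lam y ∈ S := by
  unfold RS at hy
  induction hy using Submodule.span_induction generalizing lam with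
  | mem y hy =>
    obtain ⟨X, hX, rfl⟩ := hy
    have h1 : cRr lam (toR X) = lam 1 • X := by
      have h2 : toR X = 1 * toR X := by rw [Matrix.one_mul]
      rw [h2, cRr_mul_right]
      have h3 : cRr lam (1 : Matrix (Fin n) (Fin n) ℝ) = lam 1 • 1 := by
        unfold cRr
        have h4 : (1 : Matrix (Fin n) (Fin n) ℝ).map lam = lam 1 • (1 : Matrix (Fin n) (Fin n) ℚ) := by
          ext i j
          by_cases h : i = j
          · subst h; simp
          · simp [h]
        rw [h4, map_smul, Matrix.toLin'_one]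
        rfl
      rw [h3, smul_mul_assoc, one_mul]
    rw [h1]
    exact S.smul_mem _ hX
  | zero =>
    have h1 : cRr lam (0 : Matrix (Fin n) (Fin n) ℝ) = 0 := by
      unfold cRr
      have h2 : (0 : Matrix (Fin n) (Fin n) ℝ).map lam = 0 := by ext i j; simp
      rw [h2, map_zero]
    rw [h1]
    exact S.zero_mem
  | add a b _ _ ha hb =>
    have h1 : cRr lam (a + b) = cRr lam a + cRr lam b := by
      unfold cRr
      have h2 : (a + b).map lam = a.map lam + b.map lam := by ext i j; simp
      rw [h2, map_add]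
    rw [h1]
    exact S.add_mem (ha lam) (hb lam)
  | smul c a _ ha =>
    have h1 : cRr lam (c • a) = cRr (lam.comp (LinearMap.mulLeft ℚ c)) a := by
      unfold cRr
      congr 1
    rw [h1]
    exact ha _

/-- A real matrix is in the real span if its rational components are in the space. -/
theorem mem_RS {S : Submodule ℚ (Module.End ℚ (Fin n → ℚ))} {y : Matrix (Fin n) (Fin n) ℝ}
    (h : ∀ lam, cRr lam y ∈ S) : y ∈ RS S := by
  obtain ⟨t, ht⟩ := Pool.Agent.R917.exists_coords (fun p : Fin n × Fin n => y p.1 p.2)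
  have h1 : y = ∑ k ∈ t, (Basis.ofVectorSpace ℚ ℝ k) •
      toR (cRr ((Basis.ofVectorSpace ℚ ℝ).coord k) y) := by
    ext i j
    have h2 := ht (i, j)
    simp only at h2
    conv_lhs => rw [h2]
    rw [Matrix.sum_apply]
    refine Finset.sum_congr rfl fun k _ => ?_
    rw [Matrix.smul_apply, smul_eq_mul]
    unfold toR cRr
    rw [Matrix.of_apply, Matrix.toLin'_apply, Matrix.mulVec_single_one, Matrix.col_apply,
      Matrix.map_apply, mul_comm]
  rw [h1]
  exact Submodule.sum_mem _ fun k _ => Submodule.smul_mem _ _ (toR_mem (h _))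

end Pool.Agent.L0h14.QU
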