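import Pool.Agent.L0h14.QU.Sys

set_option autoImplicit false
set_option linter.unusedSectionVars false
set_option linter.unusedVariables false

/-!
# Compact and noncompact summands are not linked
-/

open Module Matrix

noncomputable section

namespace Pool.Agent.L0h14.QU

open Pool.Agent.Y102 Pool.Agent.N208.AM Pool.Agent.N192.GP Pool.Agent.N113.BT

section Center

variable {d N : ℕ} {E : Fin N → Matrix (Fin d) (Fin d) ℂ}
  (hsq : ∀ i, E i * E i = 1) (hanti : ∀ i j, i ≠ j → E i * E j = -(E j * E i))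
  (hN : N = 3 ∨ 6 ≤ N) (hd : 0 < d)
include hsq hanti hN hd

theorem so1_center {z : Matrix (Fin d) (Fin d) ℂ} (hz : z ∈ so1 E)
    (h : ∀ y ∈ so1 E, z * y = y * z) : z = 0 := by
  let 𝔧 : Submodule ℂ (Matrix (Fin d) (Fin d) ℂ) :=
    { carrier := {z | z ∈ so1 E ∧ ∀ y ∈ so1 E, z * y = y * z}
      zero_mem' := ⟨Submodule.zero_mem _, fun y _ => by rw [Matrix.zero_mul, Matrix.mul_zero]⟩
      add_mem' := fun {a b} ha hb => ⟨Submodule.add_mem _ ha.1 hb.1, fun y hy => by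
        rw [Matrix.add_mul, Matrix.mul_add, ha.2 y hy, hb.2 y hy]⟩
      smul_mem' := fun c a ha => ⟨Submodule.smul_mem _ c ha.1, fun y hy => by
        rw [Matrix.smul_mul, Matrix.mul_smul, ha.2 y hy]⟩ }
  have h1 := so1_simple hsq hanti hN hd 𝔧 (fun x hx => hx.1) (fun x hx y hy => by
    have h2 : x * y - y * x = 0 := by rw [hy.2 x hx, sub_self]
    rw [h2]
    exact Submodule.zero_mem _)
  rcases h1 with h1 | h1
  · have h2 : z ∈ 𝔧 := ⟨hz, h⟩
    rw [h1, Submodule.mem_bot] at h2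
    exact h2
  · have h4 : so1 E ≤ ⊥ := by
      refine (so1_perfect hsq hanti hN hd).trans ?_
      rw [Submodule.span_le]
      rintro _ ⟨x, hx, y, hy, rfl⟩
      rw [← h1] at hx
      change _ = _
      rw [hx.2 y hy, sub_self]
    exact (Submodule.mem_bot ℂ).1 (h4 hz)

end Center

/-- The double bracket. -/
def dbl {R : Type} [Ring R] (j y : R) : R := j * (j * y - y * j) - (j * y - y * j) * j

theorem dbl_comm {R : Type} [Ring R] [Module ℚ R] {j y : R} (hj : j * j = -1) (h : dbl j y = 0) :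
    j * y = y * j := by
  have e : dbl j y = -((2 : ℚ) • (y + j * y * j)) := by
    unfold dbl
    rw [mul_sub, sub_mul, ← mul_assoc, hj, ← mul_assoc, mul_assoc y j j, hj, mul_neg, mul_one,
      neg_mul, one_mul, two_smul]
    abel
  rw [e, neg_eq_zero, smul_eq_zero] at h
  have h1 : y = -(j * y * j) := by
    rcases h with h | h
    · norm_num at h
    · exact eq_neg_of_add_eq_zero_left h
  have h2 : j * y = -(j * (j * y * j)) := by
    conv_lhs => rw [h1]
    rw [mul_neg]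
  rw [h2, ← mul_assoc, ← mul_assoc, hj, neg_mul, neg_mul, one_mul, neg_neg]

theorem cR_dbl {n : ℕ} (x y : Matrix (Fin n) (Fin n) ℝ) : cR (dbl x y) = dbl (cR x) (cR y) := by
  unfold dbl
  rw [cR_sub, cR_mul, cR_mul, cR_sub, cR_mul, cR_mul]

variable {g k : ℕ}

namespace Sys

variable {A : AbVar g} {S : Part g k} {C : Set (Fin k)} {R : Module.End ℚ A.H1} {D : ℚ}
  (h : Sys A S C R D)

theorem dbl_mem {y : Matrix (Fin (2 * g)) (Fin (2 * g)) ℝ} (hy : y ∈ RS A.NA) :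
    dbl (JR A) y ∈ RS (der A.NA) :=
  RS_br hbr (JR_mem A) (RS_mono hdN (RS_br hbr (JR_mem A) hy))

include h

theorem ac_one (s : Fin k) : S.ac s 1 = 1 := by
  unfold Part.ac
  rw [Matrix.mul_one, h.qp]

theorem ac_JJ (s : Fin k) : S.ac s (cR (JR A)) * S.ac s (cR (JR A)) = -1 := by
  rw [← h.ac_mul s (cR_mem (JR_mem A)), ← cR_mul, JR_sq, cR_neg, cR_one]
  unfold Part.ac
  rw [Matrix.mul_neg, Matrix.mul_one, Matrix.neg_mul, h.qp]

theorem ac_dbl (s : Fin k) {y : Matrix (Fin (2 * g)) (Fin (2 * g)) ℂ} (hy : y ∈ CS A.NA) :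
    S.ac s (dbl (cR (JR A)) y) = dbl (S.ac s (cR (JR A))) (S.ac s y) := by
  have hJ := cR_mem (JR_mem A)
  have h1 : cR (JR A) * y - y * cR (JR A) ∈ CS A.NA := CS_mono hdN (CS_br hbr hJ hy)
  unfold dbl
  rw [h.ac_br s hJ h1, h.ac_br s hJ hy]

theorem exists_x {s : Fin k} (hs : s ∉ C) :
    ∃ x ∈ RS (der A.NA), S.ac s (cR (dbl (JR A) x)) ≠ 0 := by
  by_contra hcon
  push Not at hcon
  have hJ := cR_mem (JR_mem A)
  have h0 : S.ac s (cR (JR A)) = 0 := by
    refine so1_center (h.sq s) (h.anti s) (h.rank s) (h.pos s) (h.ncpt s hs) fun y hy => ?_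
    obtain ⟨w, hw, rfl⟩ := h.surj full_NA s hy
    obtain ⟨h1, h2⟩ := re_im_mem hw
    have k1 := hcon _ h1
    have k2 := hcon _ h2
    rw [cR_dbl, h.ac_dbl s (CS_mono hdN (cR_mem h1))] at k1
    rw [cR_dbl, h.ac_dbl s (CS_mono hdN (cR_mem h2))] at k2
    have l1 := dbl_comm (h.ac_JJ s) k1
    have l2 := dbl_comm (h.ac_JJ s) k2
    rw [re_im w, ac_add, ac_smul, Matrix.mul_add, Matrix.add_mul, Matrix.mul_smul,
      Matrix.smul_mul, l1, l2]
  have h1 := h.ac_JJ s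
  rw [h0, Matrix.mul_zero] at h1
  haveI : Nonempty (Fin (S.d s)) := ⟨⟨0, h.pos s⟩⟩
  exact one_ne_zero (neg_eq_zero.1 h1.symm)

/-- On a compact summand, the double brackets are zero. -/
theorem cpt_dbl {s : Fin k} (hs : s ∈ C) {y : Matrix (Fin (2 * g)) (Fin (2 * g)) ℂ}
    (hy : y ∈ CS A.NA) : S.ac s (dbl (cR (JR A)) y) = 0 := by
  rw [h.ac_dbl s hy]
  have h1 : S.ac s (cR (JR A)) = Complex.I • 1 := by
    unfold Part.ac
    rw [Matrix.mul_assoc, h.cpt s hs, Matrix.mul_smul, h.qp]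
  rw [h1]
  unfold dbl
  simp only [smul_mul_assoc, mul_smul_comm, one_mul, mul_one, sub_self, mul_zero,
    smul_zero]

variable {q : Submodule ℚ (Module.End ℚ A.H1)} (hq : A.Full q)
include hq

/-- The commutant of the derived algebra does not link compact and noncompact summands. -/
theorem kill1 {s s' : Fin k} (hs : s ∈ C) (hs' : s' ∉ C)
    {T : Matrix (Fin (2 * g)) (Fin (2 * g)) ℂ} (hT : ∀ y ∈ CS (der q), T * y = y * T) :
    S.Q s' * T * S.P s = 0 := by
  obtain ⟨x, hx, hx0⟩ := h.exists_x hs'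
  have hxN : x ∈ RS A.NA := RS_mono hdN hx
  have hxp : dbl (JR A) x ∈ RS (der A.NA) := dbl_mem hxN
  obtain ⟨y, hy, h1⟩ := h.singleR hq hs' hxp
  have hyN : y ∈ RS A.NA := RS_mono (hqd hq |>.trans hdN) hy
  have hyC : cR y ∈ CS A.NA := cR_mem hyN
  have hxC : cR (dbl (JR A) x) ∈ CS A.NA := CS_mono hdN (cR_mem hxp)
  have e1 : cR (dbl (JR A) x) * (S.P s' * (S.Q s' * T * S.P s) * S.Q s) =
      (S.P s' * (S.Q s' * T * S.P s) * S.Q s) * cR y := by
    calc cR (dbl (JR A) x) * (S.P s' * (S.Q s' * T * S.P s) * S.Q s)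
        = (cR (dbl (JR A) x) * (S.P s' * S.Q s')) * (T * S.P s * S.Q s) := by
          simp only [Matrix.mul_assoc]
      _ = (S.P s' * (S.Q s' * cR (dbl (JR A) x))) * (T * S.P s * S.Q s) := by
          rw [← h.comm s' hxC]; simp only [Matrix.mul_assoc]
      _ = (S.P s' * (S.Q s' * cR y)) * (T * S.P s * S.Q s) := by rw [h1]
      _ = S.P s' * S.Q s' * (cR y * T) * (S.P s * S.Q s) := by simp only [Matrix.mul_assoc]
      _ = S.P s' * S.Q s' * (T * cR y) * (S.P s * S.Q s) := by rw [hT _ (cR_mem hy)]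
      _ = S.P s' * S.Q s' * T * (cR y * (S.P s * S.Q s)) := by simp only [Matrix.mul_assoc]
      _ = S.P s' * S.Q s' * T * (S.P s * S.Q s * cR y) := by rw [h.comm s hyC]
      _ = (S.P s' * (S.Q s' * T * S.P s) * S.Q s) * cR y := by simp only [Matrix.mul_assoc]
  have e2 : S.Q s * cR (dbl (JR A) y) = 0 := by
    have hd : cR (dbl (JR A) y) ∈ CS A.NA := CS_mono hdN (cR_mem (dbl_mem hyN))
    rw [h.Qx s hd, cR_dbl, h.cpt_dbl hs hyC, Matrix.zero_mul]
  have e3 : cR (dbl (JR A) x) * (S.P s' * (S.Q s' * T * S.P s) * S.Q s) =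
      (S.P s' * (S.Q s' * T * S.P s) * S.Q s) * cR (y + (1 / 4 : ℝ) • dbl (JR A) y) := by
    rw [e1, cR_add, cR_smul, Matrix.mul_add, Matrix.mul_smul,
      Matrix.mul_assoc _ (S.Q s) (cR (dbl (JR A) y)), e2, Matrix.mul_zero, smul_zero, add_zero]
  have e4 := adj_zeroC A (adj_p A hxN) (adj_k A hyN) e3
  change cR (dbl (JR A) x) * _ = 0 at e4
  have e5 : S.ac s' (cR (dbl (JR A) x)) * (S.Q s' * T * S.P s) = 0 := by
    have e6 : S.Q s' * (cR (dbl (JR A) x) * (S.P s' * (S.Q s' * T * S.P s) * S.Q s)) * S.P s =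
        S.ac s' (cR (dbl (JR A) x)) * (S.Q s' * T * S.P s) * (S.Q s * S.P s) := by
      unfold Part.ac
      simp only [Matrix.mul_assoc]
    rw [e4, Matrix.mul_zero, Matrix.zero_mul, h.qp, Matrix.mul_one] at e6
    exact e6.symm
  refine so1_kill (h.sq s') (h.anti s') (h.rank s') (h.pos s') ?_
    (h.ac_der s' (cR_mem hxp)) hx0 e5
  intro z hz
  obtain ⟨w, hw, rfl⟩ := h.surj hq s' hz
  have hwN : w ∈ CS A.NA := CS_mono (hqd hq |>.trans hdN) hw
  refine ⟨S.ac s w, ?_⟩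
  calc S.ac s' w * (S.Q s' * T * S.P s) = (S.ac s' w * S.Q s') * T * S.P s := by
        simp only [Matrix.mul_assoc]
    _ = S.Q s' * (w * T) * S.P s := by rw [← h.Qx s' hwN]; simp only [Matrix.mul_assoc]
    _ = S.Q s' * T * (w * S.P s) := by rw [← hT w hw]; simp only [Matrix.mul_assoc]
    _ = S.Q s' * T * S.P s * S.ac s w := by rw [h.xP s hwN]; simp only [Matrix.mul_assoc]

theorem kill2 {s s' : Fin k} (hs : s ∈ C) (hs' : s' ∉ C)
    {T : Matrix (Fin (2 * g)) (Fin (2 * g)) ℂ} (hT : ∀ y ∈ CS (der q), T * y = y * T) :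
    S.Q s * T * S.P s' = 0 := by
  obtain ⟨x, hx, hx0⟩ := h.exists_x hs'
  have hxN : x ∈ RS A.NA := RS_mono hdN hx
  have hxp : dbl (JR A) x ∈ RS (der A.NA) := dbl_mem hxN
  obtain ⟨y, hy, h1⟩ := h.singleR hq hs' hxp
  have hyN : y ∈ RS A.NA := RS_mono (hqd hq |>.trans hdN) hy
  have hyC : cR y ∈ CS A.NA := cR_mem hyN
  have hxC : cR (dbl (JR A) x) ∈ CS A.NA := CS_mono hdN (cR_mem hxp)
  have h1' : cR (dbl (JR A) x) * S.P s' = cR y * S.P s' := by
    rw [h.xP s' hxC, h.xP s' hyC]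
    unfold Part.ac
    rw [h1]
  have e1 : (S.P s * (S.Q s * T * S.P s') * S.Q s') * cR (dbl (JR A) x) =
      cR y * (S.P s * (S.Q s * T * S.P s') * S.Q s') := by
    calc (S.P s * (S.Q s * T * S.P s') * S.Q s') * cR (dbl (JR A) x)
        = S.P s * S.Q s * T * (S.P s' * S.Q s' * cR (dbl (JR A) x)) := by
          simp only [Matrix.mul_assoc]
      _ = S.P s * S.Q s * T * (cR (dbl (JR A) x) * S.P s' * S.Q s') := by
          rw [h.comm s' hxC, Matrix.mul_assoc (cR (dbl (JR A) x))]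
      _ = S.P s * S.Q s * (T * cR y) * (S.P s' * S.Q s') := by
          rw [h1']; simp only [Matrix.mul_assoc]
      _ = S.P s * S.Q s * cR y * (T * (S.P s' * S.Q s')) := by
          rw [hT _ (cR_mem hy)]; simp only [Matrix.mul_assoc]
      _ = cR y * (S.P s * S.Q s) * (T * (S.P s' * S.Q s')) := by rw [h.comm s hyC]
      _ = cR y * (S.P s * (S.Q s * T * S.P s') * S.Q s') := by simp only [Matrix.mul_assoc]
  have e2 : cR (dbl (JR A) y) * S.P s = 0 := by
    have hd : cR (dbl (JR A) y) ∈ CS A.NA := CS_mono hdN (cR_mem (dbl_mem hyN))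
    rw [h.xP s hd, cR_dbl, h.cpt_dbl hs hyC, Matrix.mul_zero]
  have e3 : cR (y + (1 / 4 : ℝ) • dbl (JR A) y) * (S.P s * (S.Q s * T * S.P s') * S.Q s') =
      (S.P s * (S.Q s * T * S.P s') * S.Q s') * cR (dbl (JR A) x) := by
    rw [e1, cR_add, cR_smul, Matrix.add_mul, Matrix.smul_mul]
    have e5 : cR (dbl (JR A) y) * (S.P s * (S.Q s * T * S.P s') * S.Q s') =
        (cR (dbl (JR A) y) * S.P s) * ((S.Q s * T * S.P s') * S.Q s') := by
      simp only [Matrix.mul_assoc]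
    rw [e5, e2, Matrix.zero_mul, smul_zero, add_zero]
  have e4 := adj_zeroC' A (adj_p A hxN) (adj_k A hyN) e3
  change _ * cR (dbl (JR A) x) = 0 at e4
  have e5 : (S.Q s * T * S.P s') * S.ac s' (cR (dbl (JR A) x)) = 0 := by
    have e6 : S.Q s * ((S.P s * (S.Q s * T * S.P s') * S.Q s') * cR (dbl (JR A) x)) * S.P s' =
        (S.Q s * S.P s) * ((S.Q s * T * S.P s') * S.ac s' (cR (dbl (JR A) x))) := by
      unfold Part.ac
      simp only [Matrix.mul_assoc]
    rw [e4, Matrix.mul_zero, Matrix.zero_mul, h.qp, Matrix.one_mul] at e6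
    exact e6.symm
  refine so1_kill' (h.sq s') (h.anti s') (h.rank s') (h.pos s') ?_
    (h.ac_der s' (cR_mem hxp)) hx0 e5
  intro z hz
  obtain ⟨w, hw, rfl⟩ := h.surj hq s' hz
  have hwN : w ∈ CS A.NA := CS_mono (hqd hq |>.trans hdN) hw
  refine ⟨S.ac s w, ?_⟩
  calc (S.Q s * T * S.P s') * S.ac s' w = S.Q s * T * (S.P s' * S.ac s' w) := by
        simp only [Matrix.mul_assoc]
    _ = S.Q s * (T * w) * S.P s' := by rw [← h.xP s' hwN]; simp only [Matrix.mul_assoc]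
    _ = (S.Q s * w) * T * S.P s' := by rw [hT w hw]; simp only [Matrix.mul_assoc]
    _ = S.ac s w * (S.Q s * T * S.P s') := by rw [h.Qx s hwN]; simp only [Matrix.mul_assoc]

end Sys

end Pool.Agent.L0h14.QU
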