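import Pool.Agent.L0h14.QU.Cen

set_option autoImplicit false
set_option linter.unusedSectionVars false
set_option linter.unusedVariables false

/-!
# Different summands are independent
-/

open Module Matrix

noncomputable section

namespace Pool.Agent.L0h14.QU

open Pool.Agent.Y102 Pool.Agent.N208.AM Pool.Agent.N192.GP Pool.Agent.N113.BT

variable {g k : ℕ}

/-- The action, as a linear map. -/
def acL (S : Part g k) (s : Fin k) : Matrix (Fin (2 * g)) (Fin (2 * g)) ℂ →ₗ[ℂ]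
    Matrix (Fin (S.d s)) (Fin (S.d s)) ℂ where
  toFun := S.ac s
  map_add' := Sys.ac_add s
  map_smul' := Sys.ac_smul s

theorem acL_apply (S : Part g k) (s : Fin k) (x : Matrix (Fin (2 * g)) (Fin (2 * g)) ℂ) :
    acL S s x = S.ac s x := rfl

/-- The two actions. -/
def ac2 (S : Part g k) (s t : Fin k) : Matrix (Fin (2 * g)) (Fin (2 * g)) ℂ →ₗ[ℂ]
    Module.End ℂ (Fin (S.d s) → ℂ) × Module.End ℂ (Fin (S.d t) → ℂ) :=
  ((Matrix.toLinAlgEquiv' (R := ℂ) (n := Fin (S.d s))).toLinearMap.comp (acL S s)).prod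
    ((Matrix.toLinAlgEquiv' (R := ℂ) (n := Fin (S.d t))).toLinearMap.comp (acL S t))

theorem ac2_apply (S : Part g k) (s t : Fin k) (x : Matrix (Fin (2 * g)) (Fin (2 * g)) ℂ) :
    ac2 S s t x = (Matrix.toLinAlgEquiv' (S.ac s x), Matrix.toLinAlgEquiv' (S.ac t x)) := rfl

namespace Sys

variable {A : AbVar g} {S : Part g k} {C : Set (Fin k)} {R : Module.End ℚ A.H1} {D : ℚ}
  (h : Sys A S C R D)
include h

theorem ep_P (s : Fin k) : (∑ t, S.P t * S.Q t) * S.P s = S.P s := by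
  rw [Matrix.sum_mul, Finset.sum_eq_single s]
  · rw [Matrix.mul_assoc, h.qp, Matrix.mul_one]
  · intro t _ hts
    rw [Matrix.mul_assoc, h.qp' t s hts, Matrix.mul_zero]
  · intro hs
    exact absurd (Finset.mem_univ s) hs

theorem Q_ep (s : Fin k) : S.Q s * (∑ t, S.P t * S.Q t) = S.Q s := by
  rw [Matrix.mul_sum, Finset.sum_eq_single s]
  · rw [← Matrix.mul_assoc, h.qp, Matrix.one_mul]
  · intro t _ hts
    rw [← Matrix.mul_assoc, h.qp' s t (Ne.symm hts), Matrix.zero_mul]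
  · intro hs
    exact absurd (Finset.mem_univ s) hs

theorem rr : (Complex.I * (Real.sqrt (D : ℝ) : ℂ)) * (Complex.I * (Real.sqrt (D : ℝ) : ℂ)) =
    -(D : ℂ) := by
  have h1 : (0 : ℝ) ≤ (D : ℝ) := by
    have := h.D0
    exact_mod_cast this.le
  have h2 : ((Real.sqrt (D : ℝ) : ℂ)) * (Real.sqrt (D : ℝ) : ℂ) = (D : ℂ) := by
    rw [← Complex.ofReal_mul, Real.mul_self_sqrt h1]
    simp
  calc (Complex.I * (Real.sqrt (D : ℝ) : ℂ)) * (Complex.I * (Real.sqrt (D : ℝ) : ℂ)) =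
      (Complex.I * Complex.I) * ((Real.sqrt (D : ℝ) : ℂ) * (Real.sqrt (D : ℝ) : ℂ)) := by ring
    _ = -(D : ℂ) := by rw [h2, Complex.I_mul_I, neg_one_mul]

theorem R_ep : toC R * (∑ t, S.P t * S.Q t) =
    (Complex.I * (Real.sqrt (D : ℝ) : ℂ)) • ∑ t, S.P t * S.Q t := by
  have h1 : toC R * toC R * toC R = -((D : ℂ) • toC R) := by
    rw [← toC_mul', ← toC_mul', h.cube]
    ext i j
    simp [toC]
  rw [h.sum]
  have h3 : toC R * (toC R * toC R) = ((Complex.I * (Real.sqrt (D : ℝ) : ℂ)) *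
      (Complex.I * (Real.sqrt (D : ℝ) : ℂ))) • toC R := by
    rw [h.rr, ← Matrix.mul_assoc, h1, neg_smul]
  rw [Matrix.mul_smul, Matrix.mul_add, Matrix.mul_smul, h3]
  module

theorem ep_R : (∑ t, S.P t * S.Q t) * toC R =
    (Complex.I * (Real.sqrt (D : ℝ) : ℂ)) • ∑ t, S.P t * S.Q t := by
  rw [← h.R_ep]
  exact h.ep_comm rfl

theorem RP (s : Fin k) : toC R * S.P s = (Complex.I * (Real.sqrt (D : ℝ) : ℂ)) • S.P s := by
  conv_lhs => rw [← h.ep_P s]
  rw [← Matrix.mul_assoc, h.R_ep, Matrix.smul_mul, h.ep_P]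

theorem QR (s : Fin k) : S.Q s * toC R = (Complex.I * (Real.sqrt (D : ℝ) : ℂ)) • S.Q s := by
  conv_lhs => rw [← h.Q_ep s]
  rw [Matrix.mul_assoc, h.ep_R, Matrix.mul_smul, h.Q_ep]

variable {q : Submodule ℚ (Module.End ℚ A.H1)} (hq : A.Full q)
include hq

omit h in
theorem dq_br : ∀ X ∈ der q, ∀ Y ∈ der q, X * Y - Y * X ∈ der q := fun X hX Y hY =>
  Submodule.subset_span ⟨X, hq.der_le hX, Y, hq.der_le hY, rfl⟩

omit h in
theorem dqN : der q ≤ A.NA := (hqd hq).trans hdN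

/-- There is no intertwining matrix. -/
theorem no_link {s t : Fin k} (hst : s ≠ t) (hr : S.N s = S.N t) {M : Matrix (Fin (S.d t)) (Fin (S.d s)) ℂ}
    (hM : ∀ w ∈ CS (der q), S.ac t w * M = M * S.ac s w) : M = 0 := by
  have h1 : Cm q R D (S.P t * M * S.Q s) := by
    refine ⟨fun y hy => ?_, ?_, ?_⟩
    · have hyN : y ∈ CS A.NA := CS_mono (dqN hq) hy
      calc S.P t * M * S.Q s * y = S.P t * M * (S.Q s * y) := by simp only [Matrix.mul_assoc]
        _ = S.P t * (M * S.ac s y) * S.Q s := by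
          rw [h.Qx s hyN]; simp only [Matrix.mul_assoc]
        _ = (S.P t * S.ac t y) * M * S.Q s := by rw [← hM y hy]; simp only [Matrix.mul_assoc]
        _ = y * (S.P t * M * S.Q s) := by rw [← h.xP t hyN]; simp only [Matrix.mul_assoc]
    · have e1 : S.P t * M * S.Q s * toC R = (Complex.I * (Real.sqrt (D : ℝ) : ℂ)) •
          (S.P t * M * S.Q s) := by
        rw [Matrix.mul_assoc, h.QR, Matrix.mul_smul]
      have e2 : toC R * (S.P t * M * S.Q s) = (Complex.I * (Real.sqrt (D : ℝ) : ℂ)) •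
          (S.P t * M * S.Q s) := by
        rw [← Matrix.mul_assoc, ← Matrix.mul_assoc, h.RP, Matrix.smul_mul, Matrix.smul_mul]
      rw [e1, e2]
    · have e2 : toC R * (S.P t * M * S.Q s) = (Complex.I * (Real.sqrt (D : ℝ) : ℂ)) •
          (S.P t * M * S.Q s) := by
        rw [← Matrix.mul_assoc, ← Matrix.mul_assoc, h.RP, Matrix.smul_mul, Matrix.smul_mul]
      rw [Matrix.mul_assoc, e2, Matrix.mul_smul, e2, smul_smul, h.rr, neg_smul]
  exact h.Cm_zero hq hst hr h1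

theorem idl {s t : Fin k} (hw : ∃ w ∈ CS (der q), S.ac s w = 0 ∧ S.ac t w ≠ 0)
    {y : Matrix (Fin (S.d t)) (Fin (S.d t)) ℂ} (hy : y ∈ so1 (S.E t)) :
    ∃ w ∈ CS (der q), S.ac t w = y ∧ S.ac s w = 0 := by
  let 𝔧 : Submodule ℂ (Matrix (Fin (S.d t)) (Fin (S.d t)) ℂ) :=
    { carrier := {z | ∃ w ∈ CS (der q), S.ac t w = z ∧ S.ac s w = 0}
      zero_mem' := ⟨0, Submodule.zero_mem _, by rw [← acL_apply, map_zero], by
        rw [← acL_apply, map_zero]⟩
      add_mem' := by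
        rintro _ _ ⟨w, hw, rfl, h1⟩ ⟨w', hw', rfl, h2⟩
        exact ⟨w + w', Submodule.add_mem _ hw hw', ac_add t w w', by
          rw [ac_add, h1, h2, add_zero]⟩
      smul_mem' := by
        rintro c _ ⟨w, hw, rfl, h1⟩
        exact ⟨c • w, Submodule.smul_mem _ c hw, ac_smul t c w, by rw [ac_smul, h1, smul_zero]⟩ }
  have h1 := so1_simple (h.sq t) (h.anti t) (h.rank t) (h.pos t) 𝔧 (by
    rintro _ ⟨w, hw, rfl, -⟩
    exact h.ac_der t (CS_mono (hqd hq) hw)) (by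
    rintro x hx _ ⟨w, hw, rfl, h2⟩
    obtain ⟨v, hv, rfl⟩ := h.surj hq t hx
    have hvN : v ∈ CS A.NA := CS_mono (dqN hq) hv
    have hwN : w ∈ CS A.NA := CS_mono (dqN hq) hw
    refine ⟨v * w - w * v, CS_br (dq_br hq) hv hw, h.ac_br t hvN hwN, ?_⟩
    rw [h.ac_br s hvN hwN, h2, Matrix.mul_zero, Matrix.zero_mul, sub_zero])
  rcases h1 with h1 | h1
  · exfalso
    obtain ⟨w, hw, h2, h3⟩ := hw
    have h4 : S.ac t w ∈ 𝔧 := ⟨w, hw, rfl, h2⟩
    rw [h1, Submodule.mem_bot] at h4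
    exact h3 h4
  · have h2 : y ∈ 𝔧 := by
      rw [h1]
      exact hy
    exact h2

theorem indep {s t : Fin k} (hst : s ≠ t) {y : Matrix (Fin (S.d t)) (Fin (S.d t)) ℂ}
    (hy : y ∈ so1 (S.E t)) : ∃ w ∈ CS (der q), S.ac t w = y ∧ S.ac s w = 0 := by
  by_cases c1 : ∃ w ∈ CS (der q), S.ac s w = 0 ∧ S.ac t w ≠ 0
  · exact h.idl hq c1 hy
  by_cases c2 : ∃ w ∈ CS (der q), S.ac t w = 0 ∧ S.ac s w ≠ 0
  · obtain ⟨w, hw, rfl⟩ := h.surj hq t hy
    obtain ⟨v, hv, h1, h2⟩ := h.idl hq c2 (h.ac_der s (CS_mono (hqd hq) hw))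
    refine ⟨w - v, Submodule.sub_mem _ hw hv, ?_, ?_⟩
    · rw [ac_sub, h2, sub_zero]
    · rw [ac_sub, h1, sub_self]
  exfalso
  push Not at c1 c2
  haveI : Nonempty (Fin (S.d s)) := ⟨⟨0, h.pos s⟩⟩
  haveI : Nonempty (Fin (S.d t)) := ⟨⟨0, h.pos t⟩⟩
  have hbr : ∀ w ∈ CS (der q), ∀ w' ∈ CS (der q), w * w' - w' * w ∈ CS (der q) :=
    fun w hw w' hw' => CS_br (dq_br hq) hw hw'
  have hN : CS (der q) ≤ CS A.NA := CS_mono (dqN hq)
  have hlk : Lk (enM (S.E s)) (fun _ => (0 : Fin 1)) (enM (S.E t)) (fun _ => (0 : Fin 1))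
      ((CS (der q)).map (ac2 S s t)) := by
    refine ⟨?_, ?_, ?_, ?_, ?_⟩
    · rintro _ ⟨w, hw, rfl⟩ _ ⟨w', hw', rfl⟩
      refine ⟨w * w' - w' * w, hbr w hw w' hw', ?_⟩
      rw [ac2_apply, ac2_apply, ac2_apply, h.ac_br s (hN hw) (hN hw'),
        h.ac_br t (hN hw) (hN hw')]
      simp only [map_sub, map_mul, Prod.mk_mul_mk, Prod.mk_sub_mk]
    · rw [soC_one, ← so1_map]
      ext x
      constructor
      · rintro ⟨_, ⟨w, hw, rfl⟩, rfl⟩
        exact ⟨S.ac s w, h.ac_der s (CS_mono (hqd hq) hw), rfl⟩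
      · rintro ⟨z, hz, rfl⟩
        obtain ⟨w, hw, rfl⟩ := h.surj hq s hz
        exact ⟨_, ⟨w, hw, rfl⟩, rfl⟩
    · rw [soC_one, ← so1_map]
      ext x
      constructor
      · rintro ⟨_, ⟨w, hw, rfl⟩, rfl⟩
        exact ⟨S.ac t w, h.ac_der t (CS_mono (hqd hq) hw), rfl⟩
      · rintro ⟨z, hz, rfl⟩
        obtain ⟨w, hw, rfl⟩ := h.surj hq t hz
        exact ⟨_, ⟨w, hw, rfl⟩, rfl⟩
    · rintro Y ⟨w, hw, e⟩
      rw [ac2_apply, Prod.mk.injEq] at e
      have e1 : S.ac s w = 0 := by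
        apply (Matrix.toLinAlgEquiv' (R := ℂ) (n := Fin (S.d s))).injective
        rw [e.1, map_zero]
      rw [← e.2, c1 w hw e1, map_zero]
    · rintro X ⟨w, hw, e⟩
      rw [ac2_apply, Prod.mk.injEq] at e
      have e1 : S.ac t w = 0 := by
        apply (Matrix.toLinAlgEquiv' (R := ℂ) (n := Fin (S.d t))).injective
        rw [e.2, map_zero]
      rw [← e.1, c2 w hw e1, map_zero]
  obtain ⟨hr, T, hT0, hT⟩ := exists_T_all (h.rank s) (h.rank t) hlk (enM_CE (h.sq s) (h.anti s))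
    (enM_CE (h.sq t) (h.anti t))
  have hM := h.no_link hq hst hr (M := LinearMap.toMatrix' T) fun w hw => by
    have h1 := hT _ _ ⟨w, hw, ac2_apply S s t w⟩
    apply Matrix.toLin'.injective
    rw [Matrix.toLin'_mul, Matrix.toLin'_mul, Matrix.toLin'_toMatrix']
    exact h1
  apply hT0
  rw [← Matrix.toLin'_toMatrix' T, hM, map_zero]

/-- **All the summands are independent.** -/
theorem joint (t : Fin k) {y : Matrix (Fin (S.d t)) (Fin (S.d t)) ℂ} (hy : y ∈ so1 (S.E t)) :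
    ∃ w ∈ CS (der q), S.ac t w = y ∧ ∀ s, s ≠ t → S.ac s w = 0 := by
  have hN : CS (der q) ≤ CS A.NA := CS_mono (dqN hq)
  have hbr : ∀ w ∈ CS (der q), ∀ w' ∈ CS (der q), w * w' - w' * w ∈ CS (der q) :=
    fun w hw w' hw' => CS_br (dq_br hq) hw hw'
  have h1 := ribet (𝔩 := CS (der q)) (p := acL S t)
    (fun x hx y hy => h.ac_br t (hN hx) (hN hy))
    (𝔤 := so1 (S.E t)) (so1_perfect (h.sq t) (h.anti t) (h.rank t) (h.pos t))
    (fun z hz => by
      obtain ⟨w, hw, e⟩ := h.surj hq t hz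
      exact ⟨w, hw, e⟩)
    (B := Fin k) (𝔫 := fun s => CS (der q) ⊓ LinearMap.ker (acL S s))
    (fun s => ⟨inf_le_left, fun x hx w hw => ⟨hbr x hx w hw.1, by
      have e1 : S.ac s w = 0 := hw.2
      change S.ac s (x * w - w * x) = 0
      rw [h.ac_br s (hN hx) (hN hw.1), e1, Matrix.mul_zero, Matrix.zero_mul, sub_zero]⟩⟩)
    (Finset.univ.erase t) (fun s hs z hz => by
      obtain ⟨w, hw, e, e'⟩ := h.indep hq (Finset.ne_of_mem_erase hs) hz
      exact ⟨w, ⟨hw, e'⟩, e⟩)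
  obtain ⟨w, hw, e⟩ := h1 hy
  refine ⟨w, hw.1, e, fun s hs => ?_⟩
  have h2 := (Submodule.mem_iInf _).1 ((Submodule.mem_iInf _).1 hw.2 s)
    (Finset.mem_erase.2 ⟨hs, Finset.mem_univ s⟩)
  exact h2.2

/-- The derived algebras have the same image on the sum of the summands. -/
theorem all_der {X : Matrix (Fin (2 * g)) (Fin (2 * g)) ℂ} (hX : X ∈ CS (der A.NA)) :
    ∃ w ∈ CS (der q), ∀ t, S.ac t X = S.ac t w := by
  choose w hw h1 h2 using fun t => h.joint hq t (h.ac_der t hX)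
  refine ⟨∑ t, w t, Submodule.sum_mem _ fun t _ => hw t, fun t => ?_⟩
  rw [← acL_apply S t (∑ t, w t), map_sum, Finset.sum_eq_single t]
  · exact (h1 t).symm
  · intro s _ hs
    exact h2 s t (Ne.symm hs)
  · intro ht
    exact absurd (Finset.mem_univ t) ht

end Sys

end Pool.Agent.L0h14.QU
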