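import Pool.Agent.L0h14.QU.S3
import Pool.Agent.N192.GP.InterQ

set_option autoImplicit false
set_option linter.unusedSectionVars false
set_option linter.unusedVariables false

/-!
# Two linked orthogonal Lie algebras of one colour
-/

open Module

noncomputable section

namespace Pool.Agent.L0h14.QU

open Pool.Agent.Y102 Pool.Agent.N192.GP

section Three

variable {U : Type} [AddCommGroup U] [Module ℂ U] {E : Fin 3 → Module.End ℂ U}

/-- The quaternions of a Clifford system of rank three. -/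
theorem qq_of (hE : SP.CE E) : QQ (E 0 * E 2) (E 1 * E 2) := by
  refine ⟨SP.simple_sq hE (by decide), SP.simple_sq hE (by decide), ?_⟩
  have e1 : E 0 * E 2 * (E 1 * E 2) = -(E 0 * E 1) := by
    rw [mul_assoc, ← mul_assoc (E 2), hE.anti 2 1 (by decide), neg_mul, mul_neg,
      mul_assoc (E 1), hE.sq, mul_one]
  have e2 : E 1 * E 2 * (E 0 * E 2) = -(E 1 * E 0) := by
    rw [mul_assoc, ← mul_assoc (E 2), hE.anti 2 0 (by decide), neg_mul, mul_neg,
      mul_assoc (E 0), hE.sq, mul_one]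
  rw [e1, e2, hE.anti 0 1 (by decide)]

theorem qq_prod (hE : SP.CE E) : E 0 * E 2 * (E 1 * E 2) = -(E 0 * E 1) := by
  rw [mul_assoc, ← mul_assoc (E 2), hE.anti 2 1 (by decide), neg_mul, mul_neg,
    mul_assoc (E 1), hE.sq, mul_one]

theorem soE_three (hE : SP.CE E) : SP.soE E = S3 (E 0 * E 2) (E 1 * E 2) := by
  refine le_antisymm ?_ ?_
  · unfold SP.soE
    rw [Submodule.span_le]
    rintro _ ⟨i, j, hij, rfl⟩
    have h01 : E 0 * E 1 ∈ S3 (E 0 * E 2) (E 1 * E 2) := by
      have h1 := (S3 (E 0 * E 2) (E 1 * E 2)).neg_mem (qq_of hE).ijS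
      rwa [qq_prod hE, neg_neg] at h1
    have hneg : ∀ a b, a ≠ b → E b * E a ∈ S3 (E 0 * E 2) (E 1 * E 2) →
        E a * E b ∈ S3 (E 0 * E 2) (E 1 * E 2) := fun a b hab h1 => by
      rw [hE.anti a b hab]
      exact Submodule.neg_mem _ h1
    fin_cases i <;> fin_cases j
    · exact absurd rfl hij
    · exact h01
    · exact (qq_of hE).iS
    · exact hneg 1 0 (by decide) h01
    · exact absurd rfl hij
    · exact (qq_of hE).jS
    · exact hneg 2 0 (by decide) (qq_of hE).iS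
    · exact hneg 2 1 (by decide) (qq_of hE).jS
    · exact absurd rfl hij
  · unfold S3
    rw [Submodule.span_le]
    rintro x (rfl | rfl | rfl)
    · exact Submodule.subset_span ⟨0, 2, by decide, rfl⟩
    · exact Submodule.subset_span ⟨1, 2, by decide, rfl⟩
    · rw [qq_prod hE]
      exact Submodule.neg_mem _ (Submodule.subset_span ⟨0, 1, by decide, rfl⟩)

end Three

theorem soC_one {U : Type} [AddCommGroup U] [Module ℂ U] {N : ℕ} (E : Fin N → Module.End ℂ U) :
    SP.soC E (fun _ => (0 : Fin 1)) = SP.soE E := by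
  unfold SP.soC SP.soE
  congr 1
  ext x
  simp

theorem soS_one {U : Type} [AddCommGroup U] [Module ℂ U] {N : ℕ} (E : Fin N → Module.End ℂ U)
    (s : Fin 1) : SP.soS E (fun _ => (0 : Fin 1)) s = SP.soE E := by
  unfold SP.soS SP.soE
  congr 1
  ext x
  simp [Subsingleton.elim s 0]

section QP

variable {R R' : Type} [Ring R] [Algebra ℂ R] [Nontrivial R] [Ring R'] [Algebra ℂ R'] [Nontrivial R']

/-- The images of two anticommuting quaternions under an isomorphism. -/
theorem img_sq {I J : R} {I' J' : R'} (h : QQ I J) (h' : QQ I' J') {𝔮 : Submodule ℂ (R × R')}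
    (hbr : ∀ p ∈ 𝔮, ∀ p' ∈ 𝔮, (p.1 * p'.1 - p'.1 * p.1, p.2 * p'.2 - p'.2 * p.2) ∈ 𝔮)
    (hsnd : ∀ p ∈ 𝔮, p.2 ∈ S3 I' J')
    (inj : ∀ Y, ((0, Y) : R × R') ∈ 𝔮 → Y = 0) (inj' : ∀ X, ((X, 0) : R × R') ∈ 𝔮 → X = 0)
    {y y' : R'} (hy : (I, y) ∈ 𝔮) (hy' : (J, y') ∈ 𝔮) : y * y = -1 := by
  obtain ⟨a, b, c, rfl⟩ := mem_S3.1 (hsnd _ hy)
  obtain ⟨a', b', c', rfl⟩ := mem_S3.1 (hsnd _ hy')
  have h1 := hbr _ hy _ (hbr _ hy _ hy')
  simp only at h1
  have e1 : I * (I * J - J * I) - (I * J - J * I) * I = (-4 : ℂ) • J := by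
    rw [h.t6, mul_sub, sub_mul, mul_neg, h.t1, neg_mul, h.t2]
    module
  rw [e1, h'.br, h'.br] at h1
  have h2 := 𝔮.smul_mem (-4 : ℂ) hy'
  have h3 := 𝔮.sub_mem h1 h2
  have h4 : ∀ z z' : R', (((-4 : ℂ) • J, z) : R × R') - (-4 : ℂ) • (J, z') =
      (0, z - (-4 : ℂ) • z') := fun z z' => Prod.ext (sub_self _) rfl
  rw [h4] at h3
  have h5 := inj _ h3
  -- coefficients
  have h6 : (0 : ℂ) • (1 : R') + (2 * (b * (2 * (a * b' - b * a')) - c * (2 * (c * a' - a * c'))) +
      4 * a') • I' + (2 * (c * (2 * (b * c' - c * b')) - a * (2 * (a * b' - b * a'))) +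
      4 * b') • J' + (2 * (a * (2 * (c * a' - a * c')) - b * (2 * (b * c' - c * b'))) +
      4 * c') • (I' * J') = 0 := by
    rw [← h5]
    module
  obtain ⟨-, g1, g2, g3⟩ := h'.ind h6
  -- `n = 1`
  set n := a * a + b * b + c * c with hn
  set t := a * a' + b * b' + c * c' with ht
  have k1 : (1 - n) * a' = - t * a := by rw [hn, ht]; linear_combination (1 / 4 : ℂ) * g1
  have k2 : (1 - n) * b' = - t * b := by rw [hn, ht]; linear_combination (1 / 4 : ℂ) * g2
  have k3 : (1 - n) * c' = - t * c := by rw [hn, ht]; linear_combination (1 / 4 : ℂ) * g3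
  have hn1 : 1 - n = 0 := by
    by_contra hne
    have m1 : (1 - n) • (a' • I' + b' • J' + c' • (I' * J')) =
        (-t) • (a • I' + b • J' + c • (I' * J')) := by
      have : (1 - n) • (a' • I' + b' • J' + c' • (I' * J')) =
          ((1 - n) * a') • I' + ((1 - n) * b') • J' + ((1 - n) * c') • (I' * J') := by module
      rw [this, k1, k2, k3]
      module
    have m2 := 𝔮.sub_mem (𝔮.smul_mem (1 - n) hy') (𝔮.smul_mem (-t) hy)
    have m3 : (1 - n) • ((J, a' • I' + b' • J' + c' • (I' * J')) : R × R') -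
        (-t) • ((I, a • I' + b • J' + c • (I' * J')) : R × R') =
        ((1 - n) • J - (-t) • I, 0) := by
      refine Prod.ext rfl ?_
      change (1 - n) • (a' • I' + b' • J' + c' • (I' * J')) -
        (-t) • (a • I' + b • J' + c • (I' * J')) = 0
      rw [m1, sub_self]
    rw [m3] at m2
    have m4 := inj' _ m2
    have m5 : (0 : ℂ) • (1 : R) + t • I + (1 - n) • J + (0 : ℂ) • (I * J) = 0 := by
      rw [← m4]
      module
    exact hne (h.ind m5).2.2.1
  have hnn : n = 1 := by linear_combination -hn1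
  have e2 := h'.mul a b c a b c
  rw [e2, ← hn, hnn]
  module

end QP

section Main

variable {U U' : Type} [AddCommGroup U] [Module ℂ U] [AddCommGroup U'] [Module ℂ U']
    {E : Fin 3 → Module.End ℂ U} {E' : Fin 3 → Module.End ℂ U'}
    {𝔮 : Submodule ℂ (Module.End ℂ U × Module.End ℂ U')}
    (h : Lk E (fun _ => (0 : Fin 1)) E' (fun _ => (0 : Fin 1)) 𝔮)
  [FiniteDimensional ℂ U] [Nontrivial U] [FiniteDimensional ℂ U'] [Nontrivial U']
  (hE : SP.CE E) (hE' : SP.CE E')

include h hE hE'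

theorem img_I {i j k : Fin 3} (hij : i ≠ j) (hik : i ≠ k) (hjk : j ≠ k) {y : Module.End ℂ U'}
    (hy : (E i * E j, y) ∈ 𝔮) : y * y = -1 := by
  have hq : QQ (E i * E j) (E k * E j) := by
    refine ⟨SP.simple_sq hE hij, SP.simple_sq hE (Ne.symm hjk), ?_⟩
    have e1 : E i * E j * (E k * E j) = -(E i * E k) := by
      rw [mul_assoc, ← mul_assoc (E j), hE.anti j k hjk, neg_mul, mul_neg,
        mul_assoc (E k), hE.sq, mul_one]
    have e2 : E k * E j * (E i * E j) = -(E k * E i) := by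
      rw [mul_assoc, ← mul_assoc (E j), hE.anti j i (Ne.symm hij), neg_mul, mul_neg,
        mul_assoc (E i), hE.sq, mul_one]
    rw [e1, e2, hE.anti i k hik]
  obtain ⟨y', hy'⟩ := h.mem_fst (x := E k * E j) (Submodule.subset_span
    ⟨k, j, Ne.symm hjk, rfl, rfl⟩)
  refine img_sq hq (qq_of hE') (𝔮 := 𝔮) (fun p hp p' hp' => h.br _ hp _ hp') (fun p hp => ?_)
    h.inj h.inj' hy hy'
  rw [← soE_three hE', ← soC_one]
  exact h.snd_mem hp

/-- **The intertwining map, for rank three.** -/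
theorem exists_T3 : ∃ T : U →ₗ[ℂ] U', T ≠ 0 ∧ ∀ x y, (x, y) ∈ 𝔮 → y.comp T = T.comp x := by
  classical
  let F : Fin 2 → Module.End ℂ U := fun a => E a.castSucc * E 2
  have hne : ∀ a : Fin 2, a.castSucc ≠ (2 : Fin 3) := fun a => by
    fin_cases a <;> decide
  have hFm : ∀ a, F a ∈ SP.soC E (fun _ => (0 : Fin 1)) := fun a =>
    Submodule.subset_span ⟨a.castSucc, 2, hne a, rfl, rfl⟩
  choose F' hF' using fun a => h.mem_fst (hFm a)
  have hsq : ∀ a, F' a * F' a = -1 := by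
    intro a
    fin_cases a
    · exact img_I h hE hE' (i := 0) (j := 2) (k := 1) (by decide) (by decide) (by decide) (hF' 0)
    · exact img_I h hE hE' (i := 1) (j := 2) (k := 0) (by decide) (by decide) (by decide) (hF' 1)
  have hcs : ∀ a b : Fin 2, a ≠ b → a.castSucc ≠ b.castSucc := fun a b hab h' =>
    hab (Fin.castSucc_injective 2 h')
  have hsame : ∀ a b : Fin 2, a ≠ b → ∀ γ, (E a.castSucc * E b.castSucc, γ) ∈ 𝔮 →
      F' a * F' b = -(F' b * F' a) ∧ γ = -(F' a * F' b) := by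
    intro a b hab γ hγ
    refine rel_anti (hsq a) ?_ ?_
    · have g1 := h.brk (hF' a) (hF' b)
      change (E a.castSucc * E 2 * (E b.castSucc * E 2) - E b.castSucc * E 2 *
        (E a.castSucc * E 2), _) ∈ 𝔮 at g1
      rw [e_ab0 hE (hcs a b hab) (hne a) (hne b)] at g1
      exact h.uniq g1 (𝔮.smul_mem (-2 : ℂ) hγ)
    · have g1 := h.brk hγ (hF' a)
      change (E a.castSucc * E b.castSucc * (E a.castSucc * E 2) - E a.castSucc * E 2 *
        (E a.castSucc * E b.castSucc), _) ∈ 𝔮 at g1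
      rw [e_aba hE (hcs a b hab) (hne a) (hne b)] at g1
      exact h.uniq g1 (𝔮.smul_mem (-2 : ℂ) (hF' b))
  have htwo : Two F F' := by
    refine ⟨fun a => SP.simple_sq hE (hne a), hsq, fun a b hab => ?_⟩
    obtain ⟨γ, hγ⟩ := h.mem_fst (x := E a.castSucc * E b.castSucc)
      (Submodule.subset_span ⟨_, _, hcs a b hab, rfl, rfl⟩)
    have g1 := (hsame a b hab γ hγ).1
    refine ⟨-1, by ring, ?_, by rw [g1, neg_one_smul]⟩
    rw [neg_one_smul]
    change E a.castSucc * E 2 * (E b.castSucc * E 2) = -(E b.castSucc * E 2 * (E a.castSucc * E 2))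
    have e1 : E a.castSucc * E 2 * (E b.castSucc * E 2) = -(E a.castSucc * E b.castSucc) := by
      rw [mul_assoc, ← mul_assoc (E 2), hE.anti _ _ (Ne.symm (hne b)), neg_mul, mul_neg,
        mul_assoc (E b.castSucc), hE.sq, mul_one]
    have e2 : E b.castSucc * E 2 * (E a.castSucc * E 2) = -(E b.castSucc * E a.castSucc) := by
      rw [mul_assoc, ← mul_assoc (E 2), hE.anti _ _ (Ne.symm (hne a)), neg_mul, mul_neg,
        mul_assoc (E a.castSucc), hE.sq, mul_one]
    rw [e1, e2, hE.anti _ _ (hcs a b hab)]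
  obtain ⟨T₀, hT₀⟩ := exists_hom (U := U) (U' := U')
  obtain ⟨T₁, hT₁, ε, hε, h1⟩ := htwo.exists hT₀ Finset.univ
  have hG1 : ∀ a b : Fin 2, a ≠ b → F b * E a.castSucc = E a.castSucc * F b := by
    intro a b hab
    change E b.castSucc * E 2 * E a.castSucc = E a.castSucc * (E b.castSucc * E 2)
    rw [mul_assoc, hE.anti _ _ (Ne.symm (hne a)), mul_neg, ← mul_assoc,
      hE.anti _ _ (Ne.symm (hcs a b hab)), neg_mul, neg_neg, mul_assoc]
  have hG2 : ∀ a : Fin 2, F a * E a.castSucc = -(E a.castSucc * F a) := by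
    intro a
    change E a.castSucc * E 2 * E a.castSucc = -(E a.castSucc * (E a.castSucc * E 2))
    rw [mul_assoc, hE.anti _ _ (Ne.symm (hne a)), mul_neg]
  obtain ⟨T, hT, ε', -, h2, h3⟩ := Two.fix (F := F) (F' := F') hT₁ hε
    (fun a => h1 a (Finset.mem_univ a)) (G := fun a : Fin 2 => E a.castSucc) (fun a => hE.sq _)
    hG1 hG2 Finset.univ
  have hT' : ∀ a, (F' a).comp T = T.comp (F a) := by
    intro a
    rw [h2 a, h3 a (Finset.mem_univ a), one_smul]
  refine ⟨T, hT, fun x y hxy => ?_⟩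
  have key : ∀ x ∈ SP.soC E (fun _ => (0 : Fin 1)), ∃ y, (x, y) ∈ 𝔮 ∧ y.comp T = T.comp x := by
    intro x hx
    rw [soC_one, soE_three hE] at hx
    unfold S3 at hx
    induction hx using Submodule.span_induction with
    | mem x hx =>
      rcases hx with rfl | rfl | rfl
      · exact ⟨F' 0, hF' 0, hT' 0⟩
      · exact ⟨F' 1, hF' 1, hT' 1⟩
      · obtain ⟨γ, hγ⟩ := h.mem_fst (x := E 0 * E 1)
          (Submodule.subset_span ⟨0, 1, by decide, rfl, rfl⟩)
        have g1 := (hsame 0 1 (by decide) γ hγ).2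
        refine ⟨F' 0 * F' 1, ?_, ?_⟩
        · rw [qq_prod hE]
          have g2 := 𝔮.neg_mem hγ
          rw [g1] at g2
          have e : -((E 0 * E 1, -(F' 0 * F' 1)) : Module.End ℂ U × Module.End ℂ U') =
              (-(E 0 * E 1), F' 0 * F' 1) := Prod.ext rfl (neg_neg _)
          rwa [e] at g2
        · change (F' 0 * F' 1 : Module.End ℂ U').comp T = T.comp (F 0 * F 1)
          rw [Module.End.mul_eq_comp, Module.End.mul_eq_comp, LinearMap.comp_assoc, hT',
            ← LinearMap.comp_assoc, hT', LinearMap.comp_assoc]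
    | zero => exact ⟨0, 𝔮.zero_mem, by rw [LinearMap.zero_comp, LinearMap.comp_zero]⟩
    | add a b _ _ ha hb =>
      obtain ⟨y, hy, hy'⟩ := ha
      obtain ⟨z, hz, hz'⟩ := hb
      exact ⟨y + z, 𝔮.add_mem hy hz, by rw [LinearMap.add_comp, LinearMap.comp_add, hy', hz']⟩
    | smul t a _ ha =>
      obtain ⟨y, hy, hy'⟩ := ha
      exact ⟨t • y, 𝔮.smul_mem t hy, by rw [LinearMap.smul_comp, LinearMap.comp_smul, hy']⟩
  obtain ⟨y', hy', h4⟩ := key x (h.fst_mem hxy)
  rw [h.uniq hxy hy']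
  exact h4

end Main

/-- **The intertwining map of two linked orthogonal Lie algebras.** -/
theorem exists_T_all {U U' : Type} [AddCommGroup U] [Module ℂ U] [AddCommGroup U'] [Module ℂ U']
    [FiniteDimensional ℂ U] [Nontrivial U] [FiniteDimensional ℂ U'] [Nontrivial U']
    {N N' : ℕ} {E : Fin N → Module.End ℂ U} {E' : Fin N' → Module.End ℂ U'}
    {𝔮 : Submodule ℂ (Module.End ℂ U × Module.End ℂ U')} (hN : N = 3 ∨ 6 ≤ N) (hN' : N' = 3 ∨ 6 ≤ N')
    (h : Lk E (fun _ => (0 : Fin 1)) E' (fun _ => (0 : Fin 1)) 𝔮)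
    (hE : SP.CE E) (hE' : SP.CE E') :
    N = N' ∧ ∃ T : U →ₗ[ℂ] U', T ≠ 0 ∧ ∀ x y, (x, y) ∈ 𝔮 → y.comp T = T.comp x := by
  have hcard : ∀ n : ℕ, ∀ s : Fin 1, (Finset.univ.filter fun j : Fin n => (0 : Fin 1) = s).card = n := by
    intro n s
    have : s = 0 := Subsingleton.elim _ _
    subst this
    simp
  have h1 : finrank ℂ 𝔮 = N * (N - 1) / 2 := by
    have e := finrank_ker 𝔮 (LinearMap.fst ℂ (Module.End ℂ U) (Module.End ℂ U'))
    have e' : 𝔮 ⊓ LinearMap.ker (LinearMap.fst ℂ (Module.End ℂ U) (Module.End ℂ U')) = ⊥ := by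
      rw [eq_bot_iff]
      rintro ⟨x, y⟩ ⟨hp, h0⟩
      have h1 : x = 0 := h0
      subst h1
      rw [Submodule.mem_bot, h.inj y hp]
      rfl
    rw [e', finrank_bot, zero_add, h.fst, soC_one, finrank_soE hE] at e
    exact e.symm
  have h2 : finrank ℂ 𝔮 = N' * (N' - 1) / 2 := by
    have e := finrank_ker 𝔮 (LinearMap.snd ℂ (Module.End ℂ U) (Module.End ℂ U'))
    have e' : 𝔮 ⊓ LinearMap.ker (LinearMap.snd ℂ (Module.End ℂ U) (Module.End ℂ U')) = ⊥ := by
      rw [eq_bot_iff]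
      rintro ⟨x, y⟩ ⟨hp, h0⟩
      have h1 : y = 0 := h0
      subst h1
      rw [Submodule.mem_bot, h.inj' x hp]
      rfl
    rw [e', finrank_bot, zero_add, h.snd, soC_one, finrank_soE hE'] at e
    exact e.symm
  have hNN : N = N' := by
    have h3 : N * (N - 1) / 2 = N' * (N' - 1) / 2 := h1.symm.trans h2
    have mono : ∀ a b : ℕ, 3 ≤ a → a < b → a * (a - 1) / 2 < b * (b - 1) / 2 := by
      intro a b ha hab
      obtain ⟨a', rfl⟩ : ∃ a', a = a' + 1 := ⟨a - 1, by omega⟩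
      obtain ⟨b', rfl⟩ : ∃ b', b = b' + 1 := ⟨b - 1, by omega⟩
      simp only [Nat.add_sub_cancel]
      have h5 : (a' + 1) * a' + 2 ≤ (b' + 1) * b' := by nlinarith
      have h6 : ((a' + 1) * a' + 2) / 2 ≤ (b' + 1) * b' / 2 := Nat.div_le_div_right h5
      omega
    rcases lt_trichotomy N N' with h4 | h4 | h4
    · have := mono N N' (by omega) h4
      omega
    · exact h4
    · have := mono N' N (by omega) h4
      omega
  refine ⟨hNN, ?_⟩
  subst hNN
  rcases hN with rfl | h6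
  · exact exists_T3 h hE hE'
  · exact h.exists_T' hE hE' (r := N) (hcard N) (hcard N) h6

end Pool.Agent.L0h14.QU
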