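import Pool.Agent.N208.AM.MainB
import Pool.Agent.Y102.T7

set_option autoImplicit false
set_option linter.unusedSectionVars false
set_option linter.unusedVariables false

/-!
# Real and complex spans of rational endomorphisms, as matrices
-/

open Module Matrix

noncomputable section

namespace Pool.Agent.L0h14.QU

open Pool.Agent.Y102 Pool.Agent.N208.AM

section Mat

variable {n : ℕ}

/-- The real matrix of a rational endomorphism. -/
def toR (X : Module.End ℚ (Fin n → ℚ)) : Matrix (Fin n) (Fin n) ℝ :=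
  Matrix.of fun i j => ((X (Pi.single j 1) i : ℚ) : ℝ)

/-- The complexification of a real matrix. -/
abbrev cR (x : Matrix (Fin n) (Fin n) ℝ) : Matrix (Fin n) (Fin n) ℂ := x.map fun r => (r : ℂ)

theorem cR_toR (X : Module.End ℚ (Fin n → ℚ)) : cR (toR X) = toC X := by
  ext i j
  simp [toR, toC]

theorem cR_add (x y : Matrix (Fin n) (Fin n) ℝ) : cR (x + y) = cR x + cR y := by
  ext i j
  simp

theorem cR_sub (x y : Matrix (Fin n) (Fin n) ℝ) : cR (x - y) = cR x - cR y := by
  ext i j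
  simp

theorem cR_neg (x : Matrix (Fin n) (Fin n) ℝ) : cR (-x) = -cR x := by
  ext i j
  simp

theorem cR_smul (c : ℝ) (x : Matrix (Fin n) (Fin n) ℝ) : cR (c • x) = (c : ℂ) • cR x := by
  ext i j
  simp

theorem cR_mul (x y : Matrix (Fin n) (Fin n) ℝ) : cR (x * y) = cR x * cR y := by
  ext i j
  simp [Matrix.mul_apply]

theorem cR_one : cR (1 : Matrix (Fin n) (Fin n) ℝ) = 1 := by
  ext i j
  by_cases h : i = j
  · subst h; simp
  · simp [h]

theorem cR_inj {x y : Matrix (Fin n) (Fin n) ℝ} (h : cR x = cR y) : x = y := by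
  ext i j
  have h1 := congrFun (congrFun h i) j
  simpa using h1

theorem cR_zero : cR (0 : Matrix (Fin n) (Fin n) ℝ) = 0 := by
  ext i j
  simp

/-- The real part. -/
abbrev reP (y : Matrix (Fin n) (Fin n) ℂ) : Matrix (Fin n) (Fin n) ℝ := y.map Complex.re

/-- The imaginary part. -/
abbrev imP (y : Matrix (Fin n) (Fin n) ℂ) : Matrix (Fin n) (Fin n) ℝ := y.map Complex.im

/-- The complex conjugate. -/
abbrev cj (y : Matrix (Fin n) (Fin n) ℂ) : Matrix (Fin n) (Fin n) ℂ := y.map (starRingEnd ℂ)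

theorem re_im (y : Matrix (Fin n) (Fin n) ℂ) : y = cR (reP y) + Complex.I • cR (imP y) := by
  ext i j
  simp only [Matrix.add_apply, Matrix.smul_apply, Matrix.map_apply, smul_eq_mul]
  rw [mul_comm]
  exact (Complex.re_add_im _).symm

theorem cj_eq (y : Matrix (Fin n) (Fin n) ℂ) : cj y = cR (reP y) - Complex.I • cR (imP y) := by
  ext i j
  simp only [Matrix.sub_apply, Matrix.smul_apply, Matrix.map_apply, smul_eq_mul]
  apply Complex.ext <;> simp

theorem cj_mul (x y : Matrix (Fin n) (Fin n) ℂ) : cj (x * y) = cj x * cj y := by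
  ext i j
  simp [Matrix.mul_apply]

theorem cj_cR (x : Matrix (Fin n) (Fin n) ℝ) : cj (cR x) = cR x := by
  ext i j
  simp

theorem reP_cR (x : Matrix (Fin n) (Fin n) ℝ) : reP (cR x) = x := by
  ext i j
  simp

theorem imP_cR (x : Matrix (Fin n) (Fin n) ℝ) : imP (cR x) = 0 := by
  ext i j
  simp

theorem reP_mul_left (x : Matrix (Fin n) (Fin n) ℝ) (y : Matrix (Fin n) (Fin n) ℂ) :
    reP (cR x * y) = x * reP y := by
  ext i j
  simp [Matrix.mul_apply]

theorem imP_mul_left (x : Matrix (Fin n) (Fin n) ℝ) (y : Matrix (Fin n) (Fin n) ℂ) :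
    imP (cR x * y) = x * imP y := by
  ext i j
  simp [Matrix.mul_apply]

theorem reP_mul_right (x : Matrix (Fin n) (Fin n) ℝ) (y : Matrix (Fin n) (Fin n) ℂ) :
    reP (y * cR x) = reP y * x := by
  ext i j
  simp [Matrix.mul_apply]

theorem imP_mul_right (x : Matrix (Fin n) (Fin n) ℝ) (y : Matrix (Fin n) (Fin n) ℂ) :
    imP (y * cR x) = imP y * x := by
  ext i j
  simp [Matrix.mul_apply]

theorem toR_add (X Y : Module.End ℚ (Fin n → ℚ)) : toR (X + Y) = toR X + toR Y := by
  ext i j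
  simp [toR]

theorem toR_smul (c : ℚ) (X : Module.End ℚ (Fin n → ℚ)) : toR (c • X) = (c : ℝ) • toR X := by
  ext i j
  simp [toR]

theorem toR_eq (X : Module.End ℚ (Fin n → ℚ)) :
    toR X = (LinearMap.toMatrix' X).map (algebraMap ℚ ℝ) := by
  ext i j
  rw [Matrix.map_apply, LinearMap.toMatrix'_apply]
  rfl

theorem toR_mul (X Y : Module.End ℚ (Fin n → ℚ)) : toR (X * Y) = toR X * toR Y := by
  rw [toR_eq, toR_eq, toR_eq, Module.End.mul_eq_comp, LinearMap.toMatrix'_comp, Matrix.map_mul]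

theorem toC_mul' (X Y : Module.End ℚ (Fin n → ℚ)) : toC (X * Y) = toC X * toC Y := by
  rw [← cR_toR, toR_mul, cR_mul, cR_toR, cR_toR]

theorem toR_sub (X Y : Module.End ℚ (Fin n → ℚ)) : toR (X - Y) = toR X - toR Y := by
  ext i j
  simp [toR]

/-- The real span. -/
def RS (S : Submodule ℚ (Module.End ℚ (Fin n → ℚ))) : Submodule ℝ (Matrix (Fin n) (Fin n) ℝ) :=
  Submodule.span ℝ {y | ∃ X ∈ S, y = toR X}

/-- The complex span. -/
def CS (S : Submodule ℚ (Module.End ℚ (Fin n → ℚ))) : Submodule ℂ (Matrix (Fin n) (Fin n) ℂ) :=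
  Submodule.span ℂ {y | ∃ X ∈ S, y = toC X}

variable {S T : Submodule ℚ (Module.End ℚ (Fin n → ℚ))}

theorem toR_mem {X : Module.End ℚ (Fin n → ℚ)} (h : X ∈ S) : toR X ∈ RS S :=
  Submodule.subset_span ⟨X, h, rfl⟩

theorem toC_mem {X : Module.End ℚ (Fin n → ℚ)} (h : X ∈ S) : toC X ∈ CS S :=
  Submodule.subset_span ⟨X, h, rfl⟩

theorem RS_mono (h : S ≤ T) : RS S ≤ RS T := by
  refine Submodule.span_mono ?_
  rintro _ ⟨X, hX, rfl⟩
  exact ⟨X, h hX, rfl⟩

theorem CS_mono (h : S ≤ T) : CS S ≤ CS T := by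
  refine Submodule.span_mono ?_
  rintro _ ⟨X, hX, rfl⟩
  exact ⟨X, h hX, rfl⟩

theorem cR_mem {y : Matrix (Fin n) (Fin n) ℝ} (h : y ∈ RS S) : cR y ∈ CS S := by
  unfold RS at h
  induction h using Submodule.span_induction with
  | mem y hy =>
    obtain ⟨X, hX, rfl⟩ := hy
    rw [cR_toR]
    exact toC_mem hX
  | zero => rw [cR_zero]; exact Submodule.zero_mem _
  | add a b _ _ ha hb => rw [cR_add]; exact Submodule.add_mem _ ha hb
  | smul c a _ ha => rw [cR_smul]; exact Submodule.smul_mem _ _ ha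

theorem re_im_mem {y : Matrix (Fin n) (Fin n) ℂ} (h : y ∈ CS S) :
    reP y ∈ RS S ∧ imP y ∈ RS S := by
  unfold CS at h
  induction h using Submodule.span_induction with
  | mem y hy =>
    obtain ⟨X, hX, rfl⟩ := hy
    rw [← cR_toR, reP_cR, imP_cR]
    exact ⟨toR_mem hX, Submodule.zero_mem _⟩
  | zero =>
    have h1 : reP (0 : Matrix (Fin n) (Fin n) ℂ) = 0 := by ext i j; simp
    have h2 : imP (0 : Matrix (Fin n) (Fin n) ℂ) = 0 := by ext i j; simp
    rw [h1, h2]
    exact ⟨Submodule.zero_mem _, Submodule.zero_mem _⟩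
  | add a b _ _ ha hb =>
    have h1 : reP (a + b) = reP a + reP b := by ext i j; simp
    have h2 : imP (a + b) = imP a + imP b := by ext i j; simp
    rw [h1, h2]
    exact ⟨Submodule.add_mem _ ha.1 hb.1, Submodule.add_mem _ ha.2 hb.2⟩
  | smul c a _ ha =>
    have h1 : reP (c • a) = c.re • reP a - c.im • imP a := by ext i j; simp
    have h2 : imP (c • a) = c.re • imP a + c.im • reP a := by ext i j; simp
    rw [h1, h2]
    exact ⟨Submodule.sub_mem _ (Submodule.smul_mem _ _ ha.1) (Submodule.smul_mem _ _ ha.2),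
      Submodule.add_mem _ (Submodule.smul_mem _ _ ha.2) (Submodule.smul_mem _ _ ha.1)⟩

theorem cj_mem {y : Matrix (Fin n) (Fin n) ℂ} (h : y ∈ CS S) : cj y ∈ CS S := by
  obtain ⟨h1, h2⟩ := re_im_mem h
  rw [cj_eq]
  exact Submodule.sub_mem _ (cR_mem h1) (Submodule.smul_mem _ _ (cR_mem h2))

theorem CS_br {V : Submodule ℚ (Module.End ℚ (Fin n → ℚ))}
    (h : ∀ X ∈ S, ∀ Y ∈ T, X * Y - Y * X ∈ V) {x y : Matrix (Fin n) (Fin n) ℂ} (hx : x ∈ CS S)
    (hy : y ∈ CS T) : x * y - y * x ∈ CS V := by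
  unfold CS at hx
  induction hx using Submodule.span_induction with
  | mem x hx =>
    obtain ⟨X, hX, rfl⟩ := hx
    unfold CS at hy
    induction hy using Submodule.span_induction with
    | mem y hy =>
      obtain ⟨Y, hY, rfl⟩ := hy
      have h1 : toC X * toC Y - toC Y * toC X = toC (X * Y - Y * X) := by
        rw [← cR_toR (X * Y - Y * X), toR_sub, cR_sub, cR_toR, cR_toR, toC_mul', toC_mul']
      rw [h1]
      exact toC_mem (h X hX Y hY)
    | zero => rw [mul_zero, zero_mul, sub_zero]; exact Submodule.zero_mem _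
    | add a b _ _ ha hb =>
      have e : toC X * (a + b) - (a + b) * toC X =
        (toC X * a - a * toC X) + (toC X * b - b * toC X) := by
        rw [mul_add, add_mul]; abel
      rw [e]
      exact Submodule.add_mem _ ha hb
    | smul c a _ ha =>
      have e : toC X * (c • a) - (c • a) * toC X = c • (toC X * a - a * toC X) := by
        rw [mul_smul_comm, smul_mul_assoc, smul_sub]
      rw [e]
      exact Submodule.smul_mem _ _ ha
  | zero => rw [mul_zero, zero_mul, sub_zero]; exact Submodule.zero_mem _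
  | add a b _ _ ha hb =>
    have e : (a + b) * y - y * (a + b) = (a * y - y * a) + (b * y - y * b) := by
      rw [mul_add, add_mul]; abel
    rw [e]
    exact Submodule.add_mem _ ha hb
  | smul c a _ ha =>
    have e : (c • a) * y - y * (c • a) = c • (a * y - y * a) := by
      rw [mul_smul_comm, smul_mul_assoc, smul_sub]
    rw [e]
    exact Submodule.smul_mem _ _ ha

theorem RS_br {V : Submodule ℚ (Module.End ℚ (Fin n → ℚ))}
    (h : ∀ X ∈ S, ∀ Y ∈ T, X * Y - Y * X ∈ V) {x y : Matrix (Fin n) (Fin n) ℝ} (hx : x ∈ RS S)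
    (hy : y ∈ RS T) : x * y - y * x ∈ RS V := by
  have h1 := CS_br h (cR_mem hx) (cR_mem hy)
  have h2 := (re_im_mem h1).1
  rwa [← cR_mul, ← cR_mul, ← cR_sub, reP_cR] at h2

/-- Commutation can be checked on rational elements. -/
theorem CS_comm {t : Matrix (Fin n) (Fin n) ℂ} (h : ∀ X ∈ S, t * toC X = toC X * t)
    {x : Matrix (Fin n) (Fin n) ℂ} (hx : x ∈ CS S) : t * x = x * t := by
  unfold CS at hx
  induction hx using Submodule.span_induction with
  | mem x hx =>
    obtain ⟨X, hX, rfl⟩ := hx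
    exact h X hX
  | zero => rw [mul_zero, zero_mul]
  | add a b _ _ ha hb => rw [mul_add, add_mul, ha, hb]
  | smul c a _ ha => rw [mul_smul_comm, smul_mul_assoc, ha]

theorem matE_CS {y : Matrix (Fin n) (Fin n) ℂ} : y ∈ CS S ↔ matE n y ∈ cx S := by
  rw [← map_lie]
  constructor
  · intro h
    exact ⟨y, h, rfl⟩
  · rintro ⟨z, hz, h⟩
    rw [← (matE n).injective h]
    exact hz

end Mat

/-! ### The positive definite form -/

section Pos

/-- A lemma on symmetric and antisymmetric matrices. -/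
theorem sk_zero {m : ℕ} {s k z : Matrix (Fin m) (Fin m) ℝ} (hs : sᵀ = s) (hk : kᵀ = -k)
    (h : s * z = z * k) : s * z = 0 := by
  have e1 : ((s * z)ᵀ * (s * z)).trace + ((z * k)ᵀ * (z * k)).trace = 0 := by
    have h1 : (s * z)ᵀ * (s * z) = zᵀ * z * (k * k) := by
      rw [Matrix.transpose_mul, hs]
      calc zᵀ * s * (s * z) = zᵀ * (s * (s * z)) := by rw [Matrix.mul_assoc]
        _ = zᵀ * (s * (z * k)) := by rw [h]
        _ = zᵀ * ((s * z) * k) := by rw [Matrix.mul_assoc s z k]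
        _ = zᵀ * ((z * k) * k) := by rw [h]
        _ = zᵀ * z * (k * k) := by simp only [Matrix.mul_assoc]
    have h2 : (z * k)ᵀ * (z * k) = -(k * (zᵀ * z * k)) := by
      rw [Matrix.transpose_mul, hk]
      simp only [Matrix.neg_mul, Matrix.mul_assoc]
    rw [h1, h2, Matrix.trace_neg, Matrix.trace_mul_comm k, Matrix.mul_assoc (zᵀ * z) k k,
      add_neg_cancel]
  have p1 : 0 ≤ ((s * z)ᵀ * (s * z)).trace := by
    rw [Matrix.trace]
    refine Finset.sum_nonneg fun i _ => ?_
    rw [Matrix.diag_apply, Matrix.mul_apply]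
    exact Finset.sum_nonneg fun j _ => mul_self_nonneg _
  have p2 : 0 ≤ ((z * k)ᵀ * (z * k)).trace := by
    rw [Matrix.trace]
    refine Finset.sum_nonneg fun i _ => ?_
    rw [Matrix.diag_apply, Matrix.mul_apply]
    exact Finset.sum_nonneg fun j _ => mul_self_nonneg _
  have p3 : ((s * z)ᵀ * (s * z)).trace = 0 := by linarith
  have p4 : ((s * z)ᴴ * (s * z)).trace = 0 := by
    rw [Matrix.conjTranspose_eq_transpose_of_trivial]
    exact p3
  exact Matrix.trace_conjTranspose_mul_self_eq_zero_iff.1 p4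

theorem ks_zero {m : ℕ} {s k z : Matrix (Fin m) (Fin m) ℝ} (hs : sᵀ = s) (hk : kᵀ = -k)
    (h : k * z = z * s) : z * s = 0 := by
  have h1 : s * zᵀ = zᵀ * (-k) := by
    have e := congrArg Matrix.transpose h
    rw [Matrix.transpose_mul, Matrix.transpose_mul, hs, hk] at e
    exact e.symm
  have h2 := sk_zero hs (k := -k) (by rw [Matrix.transpose_neg, hk]) h1
  have e := congrArg Matrix.transpose h2
  rw [Matrix.transpose_mul, hs, Matrix.transpose_transpose, Matrix.transpose_zero] at e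
  exact e

variable {g : ℕ} (A : AbVar g)

/-- The real endomorphism with the given matrix. -/
def lin (y : Matrix (Fin (2 * g)) (Fin (2 * g)) ℝ) : Module.End ℝ (Fin g → ℂ) :=
  Matrix.toLin A.lam A.lam y

/-- The matrix of a real endomorphism. -/
def rm (Y : Module.End ℝ (Fin g → ℂ)) : Matrix (Fin (2 * g)) (Fin (2 * g)) ℝ :=
  LinearMap.toMatrix A.lam A.lam Y

theorem lin_rm (Y : Module.End ℝ (Fin g → ℂ)) : lin A (rm A Y) = Y :=
  Matrix.toLin_toMatrix _ _ _

theorem rm_lin (y : Matrix (Fin (2 * g)) (Fin (2 * g)) ℝ) : rm A (lin A y) = y :=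
  LinearMap.toMatrix_toLin _ _ _

theorem lin_mul (x y : Matrix (Fin (2 * g)) (Fin (2 * g)) ℝ) :
    lin A (x * y) = lin A x * lin A y := Matrix.toLin_mul _ _ _ _ _

theorem rm_mul (x y : Module.End ℝ (Fin g → ℂ)) : rm A (x * y) = rm A x * rm A y := by
  rw [← rm_lin A (rm A x * rm A y), lin_mul, lin_rm, lin_rm]

theorem rm_ext (X : Module.End ℚ A.H1) : rm A (A.ext X) = toR X := by
  ext i j
  unfold rm
  rw [LinearMap.toMatrix_apply, A.ext_lam, A.repr_per]
  unfold toR AbVar.bas
  rw [Pi.basisFun_apply]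
  rfl

/-- The complex structure. -/
def JR : Matrix (Fin (2 * g)) (Fin (2 * g)) ℝ := rm A AbVar.JJ

theorem JR_apply (i j : Fin (2 * g)) : JR A i j = A.lam.repr (Complex.I • A.lam j) i := by
  unfold JR rm
  rw [LinearMap.toMatrix_apply]
  rfl

theorem JR_sq : JR A * JR A = -1 := by
  unfold JR
  rw [← rm_mul, JJ_sq]
  unfold rm
  rw [map_neg]
  congr 1
  exact LinearMap.toMatrix_one _

theorem JR_mem : JR A ∈ RS A.NA := by
  obtain ⟨t, ht⟩ := JJ_eq (A := A)
  unfold JR
  rw [ht]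
  unfold rm
  rw [map_sum]
  refine Submodule.sum_mem _ fun k _ => ?_
  rw [map_smul]
  refine Submodule.smul_mem _ _ ?_
  have h1 := rm_ext A (A.cmpE ((Basis.ofVectorSpace ℚ ℝ).coord k) AbVar.JJ)
  unfold rm at h1
  rw [h1]
  exact toR_mem (A.MA_le_NA (A.J_mem _))

/-- adjoint matrices -/
def Adj (y y' : Matrix (Fin (2 * g)) (Fin (2 * g)) ℝ) : Prop :=
  ∀ u v, A.PF (lin A y u) v = A.PF u (lin A y' v)

theorem adj_NA {y : Matrix (Fin (2 * g)) (Fin (2 * g)) ℝ} (hy : y ∈ RS A.NA) :
    Adj A y (JR A * y * JR A) := by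
  unfold RS at hy
  induction hy using Submodule.span_induction with
  | mem y hy =>
    obtain ⟨X, hX, rfl⟩ := hy
    have hsk : ∀ u v, A.E (A.ext X u) v = -A.E u (A.ext X v) := by
      have h2 : A.E.comp (A.ext X) = -(A.E.flip.comp (A.ext X)).flip := by
        refine A.ext_per fun u => A.ext_per fun v => ?_
        change A.E (A.ext X (A.per u)) (A.per v) = -A.E (A.per u) (A.ext X (A.per v))
        rw [A.ext_apply, A.ext_apply, ← A.om_coe, ← A.om_coe, ← Rat.cast_neg]
        congr 1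
        linear_combination A.NA_skew hX u v
      intro u v
      exact congrArg (fun F : (Fin g → ℂ) →ₗ[ℝ] (Fin g → ℂ) →ₗ[ℝ] ℝ => F u v) h2
    intro u v
    have e1 : lin A (toR X) = A.ext X := by rw [← rm_ext, lin_rm]
    rw [lin_mul, lin_mul, e1]
    unfold JR
    rw [lin_rm, A.PF_apply, A.PF_apply, hsk, Module.End.mul_apply, Module.End.mul_apply,
      AbVar.JJ_apply, AbVar.JJ_apply, smul_smul, Complex.I_mul_I, neg_one_smul, map_neg]
  | zero =>
    intro u v
    unfold lin
    simp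
  | add a b _ _ ha hb =>
    intro u v
    have e1 : lin A (a + b) = lin A a + lin A b := map_add _ _ _
    have e2 : lin A (JR A * (a + b) * JR A) = lin A (JR A * a * JR A) + lin A (JR A * b * JR A) := by
      rw [Matrix.mul_add, Matrix.add_mul]
      exact map_add _ _ _
    rw [e1, e2, LinearMap.add_apply, LinearMap.add_apply, map_add, map_add, LinearMap.add_apply,
      ha, hb]
  | smul c a _ ha =>
    intro u v
    have e1 : lin A (c • a) = c • lin A a := map_smul _ _ _
    have e2 : lin A (JR A * (c • a) * JR A) = c • lin A (JR A * a * JR A) := by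
      rw [Matrix.mul_smul, Matrix.smul_mul]
      exact map_smul _ _ _
    rw [e1, e2, LinearMap.smul_apply, LinearMap.smul_apply, map_smul, map_smul,
      LinearMap.smul_apply, ha]

/-- The matrix in the orthonormal basis. -/
def om' (y : Matrix (Fin (2 * g)) (Fin (2 * g)) ℝ) :
    Matrix (Fin (finrank ℝ (Fin g → ℂ))) (Fin (finrank ℝ (Fin g → ℂ))) ℝ :=
  LinearMap.toMatrix (onb A) (onb A) (lin A y)

theorem om'_mul (x y : Matrix (Fin (2 * g)) (Fin (2 * g)) ℝ) :
    om' A (x * y) = om' A x * om' A y := by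
  unfold om'
  rw [lin_mul, LinearMap.toMatrix_mul]

theorem om'_eq_zero {y : Matrix (Fin (2 * g)) (Fin (2 * g)) ℝ} (h : om' A y = 0) : y = 0 := by
  unfold om' at h
  have h1 : lin A y = 0 := by
    apply (LinearMap.toMatrix (onb A) (onb A)).injective
    rw [h, map_zero]
  rw [← rm_lin A y, h1]
  unfold rm
  exact map_zero _

theorem om'_adj {y y' : Matrix (Fin (2 * g)) (Fin (2 * g)) ℝ} (h : Adj A y y') :
    (om' A y)ᵀ = om' A y' := by
  ext i j
  rw [Matrix.transpose_apply]
  unfold om'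
  rw [LinearMap.toMatrix_apply, LinearMap.toMatrix_apply, onb_repr, onb_repr, h, A.PF_symm]

/-- Self-adjoint and anti-self-adjoint matrices. -/
theorem adj_zero {s k z : Matrix (Fin (2 * g)) (Fin (2 * g)) ℝ} (hs : Adj A s s)
    (hk : Adj A k (-k)) (h : s * z = z * k) : s * z = 0 := by
  refine om'_eq_zero A ?_
  rw [om'_mul]
  refine sk_zero (om'_adj A hs) (k := om' A k) ?_ (by rw [← om'_mul, ← om'_mul, h])
  rw [om'_adj A hk]
  unfold om' lin
  rw [map_neg, map_neg]

theorem adj_zero' {s k z : Matrix (Fin (2 * g)) (Fin (2 * g)) ℝ} (hs : Adj A s s)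
    (hk : Adj A k (-k)) (h : k * z = z * s) : z * s = 0 := by
  refine om'_eq_zero A ?_
  rw [om'_mul]
  refine ks_zero (om'_adj A hs) (k := om' A k) ?_ (by rw [← om'_mul, ← om'_mul, h])
  rw [om'_adj A hk]
  unfold om' lin
  rw [map_neg, map_neg]

/-- The complex version. -/
theorem adj_zeroC {s k : Matrix (Fin (2 * g)) (Fin (2 * g)) ℝ}
    {z : Matrix (Fin (2 * g)) (Fin (2 * g)) ℂ} (hs : Adj A s s)
    (hk : Adj A k (-k)) (h : cR s * z = z * cR k) : cR s * z = 0 := by
  have h1 := adj_zero A (z := reP z) hs hk (by rw [← reP_mul_left, h, reP_mul_right])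
  have h2 := adj_zero A (z := imP z) hs hk (by rw [← imP_mul_left, h, imP_mul_right])
  rw [re_im (cR s * z), reP_mul_left, imP_mul_left, h1, h2, cR_zero, smul_zero, add_zero]

theorem adj_zeroC' {s k : Matrix (Fin (2 * g)) (Fin (2 * g)) ℝ}
    {z : Matrix (Fin (2 * g)) (Fin (2 * g)) ℂ} (hs : Adj A s s)
    (hk : Adj A k (-k)) (h : cR k * z = z * cR s) : z * cR s = 0 := by
  have h1 := adj_zero' A (z := reP z) hs hk (by rw [← reP_mul_left, h, reP_mul_right])
  have h2 := adj_zero' A (z := imP z) hs hk (by rw [← imP_mul_left, h, imP_mul_right])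
  rw [re_im (z * cR s), reP_mul_right, imP_mul_right, h1, h2, cR_zero, smul_zero, add_zero]

/-- The two parts of an element of the Lie algebra. -/
theorem adj_p {y : Matrix (Fin (2 * g)) (Fin (2 * g)) ℝ} (hy : y ∈ RS A.NA) :
    Adj A (JR A * (JR A * y - y * JR A) - (JR A * y - y * JR A) * JR A)
      (JR A * (JR A * y - y * JR A) - (JR A * y - y * JR A) * JR A) := by
  have hbr : ∀ X ∈ A.NA, ∀ Y ∈ A.NA, X * Y - Y * X ∈ A.NA := fun X hX Y hY =>
    A.NA_bracket hX hY
  have h1 := adj_NA A (RS_br hbr (JR_mem A) (RS_br hbr (JR_mem A) hy))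
  have e : JR A * (JR A * (JR A * y - y * JR A) - (JR A * y - y * JR A) * JR A) * JR A =
      JR A * (JR A * y - y * JR A) - (JR A * y - y * JR A) * JR A := by
    have hJ := JR_sq A
    have a1 : ∀ z, JR A * (JR A * z) = -z := fun z => by
      rw [← Matrix.mul_assoc, hJ, Matrix.neg_mul, Matrix.one_mul]
    have a2 : ∀ z, z * JR A * JR A = -z := fun z => by
      rw [Matrix.mul_assoc, hJ, Matrix.mul_neg, Matrix.mul_one]
    simp only [Matrix.mul_sub, Matrix.sub_mul, ← Matrix.mul_assoc, hJ, Matrix.neg_mul,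
      Matrix.one_mul, a2, Matrix.mul_neg]
    abel
  rw [e] at h1
  exact h1

theorem adj_k {y : Matrix (Fin (2 * g)) (Fin (2 * g)) ℝ} (hy : y ∈ RS A.NA) :
    Adj A (y + (1 / 4 : ℝ) • (JR A * (JR A * y - y * JR A) - (JR A * y - y * JR A) * JR A))
      (-(y + (1 / 4 : ℝ) • (JR A * (JR A * y - y * JR A) - (JR A * y - y * JR A) * JR A))) := by
  have hbr : ∀ X ∈ A.NA, ∀ Y ∈ A.NA, X * Y - Y * X ∈ A.NA := fun X hX Y hY =>
    A.NA_bracket hX hY
  have h1 := adj_NA A ((RS A.NA).add_mem hy ((RS A.NA).smul_mem (1 / 4 : ℝ)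
    (RS_br hbr (JR_mem A) (RS_br hbr (JR_mem A) hy))))
  have e : JR A * (y + (1 / 4 : ℝ) • (JR A * (JR A * y - y * JR A) -
      (JR A * y - y * JR A) * JR A)) * JR A =
      -(y + (1 / 4 : ℝ) • (JR A * (JR A * y - y * JR A) - (JR A * y - y * JR A) * JR A)) := by
    have hJ := JR_sq A
    have a2 : ∀ z, z * JR A * JR A = -z := fun z => by
      rw [Matrix.mul_assoc, hJ, Matrix.mul_neg, Matrix.mul_one]
    simp only [Matrix.mul_add, Matrix.add_mul, Matrix.mul_smul, Matrix.smul_mul, Matrix.mul_sub,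
      Matrix.sub_mul, ← Matrix.mul_assoc, hJ, Matrix.neg_mul, Matrix.one_mul, a2, Matrix.mul_neg]
    module
  rw [e] at h1
  exact h1

end Pos

end Pool.Agent.L0h14.QU
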