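import Pool.Agent.N192.GP.Inter
import Pool.Agent.N113.BT.Corner

set_option autoImplicit false
set_option linter.unusedSectionVars false
set_option linter.unusedVariables false

/-!
# Orthogonal Lie algebras of rank three
-/

open Module

noncomputable section

namespace Pool.Agent.L0h14.QU

section Quat

variable {R : Type} [Ring R] [Algebra ℂ R] {I J : R}

/-- Two anticommuting elements with square `-1`. -/
structure QQ (I J : R) : Prop where
  i : I * I = -1
  j : J * J = -1
  a : I * J = -(J * I)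

/-- The pure quaternions. -/
def S3 (I J : R) : Submodule ℂ R := Submodule.span ℂ {I, J, I * J}

theorem mem_S3 {x : R} : x ∈ S3 I J ↔ ∃ a b c : ℂ, x = a • I + b • J + c • (I * J) := by
  unfold S3
  rw [Submodule.mem_span_insert]
  constructor
  · rintro ⟨a, z, hz, rfl⟩
    rw [Submodule.mem_span_pair] at hz
    obtain ⟨b, c, rfl⟩ := hz
    exact ⟨a, b, c, by rw [add_assoc]⟩
  · rintro ⟨a, b, c, rfl⟩
    exact ⟨a, b • J + c • (I * J), Submodule.mem_span_pair.2 ⟨b, c, rfl⟩, by rw [add_assoc]⟩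

variable (h : QQ I J)
include h

theorem QQ.t1 : I * (I * J) = -J := by rw [← mul_assoc, h.i, neg_one_mul]

theorem QQ.t2 : I * J * I = J := by
  rw [h.a, neg_mul, mul_assoc, h.i, mul_neg_one, neg_neg]

theorem QQ.t3 : I * J * J = -I := by rw [mul_assoc, h.j, mul_neg_one]

theorem QQ.t4 : J * (I * J) = I := by
  rw [h.a, mul_neg, ← mul_assoc, h.j, neg_one_mul, neg_neg]

theorem QQ.t5 : I * J * (I * J) = -1 := by
  rw [← mul_assoc, h.t2, h.j]

theorem QQ.t6 : J * I = -(I * J) := by rw [h.a, neg_neg]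

/-- The product of two pure quaternions. -/
theorem QQ.mul (a b c a' b' c' : ℂ) :
    (a • I + b • J + c • (I * J)) * (a' • I + b' • J + c' • (I * J)) =
      (-(a * a' + b * b' + c * c')) • (1 : R) + ((b * c' - c * b') • I + (c * a' - a * c') • J +
        (a * b' - b * a') • (I * J)) := by
  simp only [add_mul, mul_add, smul_mul_assoc, mul_smul_comm, h.i, h.j, h.t1, h.t2, h.t3, h.t4,
    h.t5, h.t6]
  module

theorem QQ.br (a b c a' b' c' : ℂ) :
    (a • I + b • J + c • (I * J)) * (a' • I + b' • J + c' • (I * J)) -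
      (a' • I + b' • J + c' • (I * J)) * (a • I + b • J + c • (I * J)) =
      (2 * (b * c' - c * b')) • I + (2 * (c * a' - a * c')) • J +
        (2 * (a * b' - b * a')) • (I * J) := by
  rw [h.mul, h.mul]
  module

theorem QQ.ind [Nontrivial R] {a b c d : ℂ} (h0 : a • (1 : R) + b • I + c • J + d • (I * J) = 0) :
    a = 0 ∧ b = 0 ∧ c = 0 ∧ d = 0 := by
  have k1 : I * (a • (1 : R) + b • I + c • J + d • (I * J)) * I = 0 := by
    rw [h0, mul_zero, zero_mul]
  have k2 : I * (a • (1 : R) + b • I + c • J + d • (I * J)) * I =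
      (-a) • (1 : R) + (-b) • I + c • J + d • (I * J) := by
    simp only [mul_add, add_mul, mul_smul_comm, smul_mul_assoc, mul_one, h.i, h.t1, h.t2, neg_mul,
      one_mul, h.t6]
    module
  rw [k2] at k1
  have k3 : a • (1 : R) + b • I = 0 := by
    have e : a • (1 : R) + b • I = (1 / 2 : ℂ) • ((a • (1 : R) + b • I + c • J + d • (I * J)) -
      ((-a) • (1 : R) + (-b) • I + c • J + d • (I * J))) := by module
    rw [e, h0, k1, sub_zero, smul_zero]
  have k4 : c • J + d • (I * J) = 0 := by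
    have e : c • J + d • (I * J) = (a • (1 : R) + b • I + c • J + d • (I * J)) -
      (a • (1 : R) + b • I) := by module
    rw [e, h0, k3, sub_zero]
  have k5 : J * (a • (1 : R) + b • I) * J = 0 := by rw [k3, mul_zero, zero_mul]
  have k6 : J * (a • (1 : R) + b • I) * J = (-a) • (1 : R) + b • I := by
    simp only [mul_add, add_mul, mul_smul_comm, smul_mul_assoc, mul_one, h.j, h.t6, neg_mul,
      h.t3]
    module
  rw [k6] at k5
  have hone : (1 : R) ≠ 0 := one_ne_zero
  have ha : a = 0 := by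
    have e : a • (1 : R) = (1 / 2 : ℂ) • ((a • (1 : R) + b • I) - ((-a) • (1 : R) + b • I)) := by
      module
    rw [k3, k5, sub_zero, smul_zero] at e
    exact (smul_eq_zero.1 e).resolve_right hone
  have hb : b = 0 := by
    rw [ha, zero_smul, zero_add] at k3
    have e := congrArg (fun x => x * I) k3
    simp only [smul_mul_assoc, h.i, zero_mul] at e
    exact (smul_eq_zero.1 e).resolve_right (neg_ne_zero.2 hone)
  -- the second half
  have k7 : c • J + d • (I * J) = (c • (1 : R) + d • I) * J := by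
    rw [add_mul, smul_mul_assoc, smul_mul_assoc, one_mul]
  have k8 : c • (1 : R) + d • I = 0 := by
    have e : (c • (1 : R) + d • I) * J * J = -(c • (1 : R) + d • I) := by
      rw [mul_assoc, h.j, mul_neg_one]
    rw [← k7, k4, zero_mul] at e
    exact (neg_eq_zero.1 e.symm)
  have k9 : J * (c • (1 : R) + d • I) * J = 0 := by rw [k8, mul_zero, zero_mul]
  have k10 : J * (c • (1 : R) + d • I) * J = (-c) • (1 : R) + d • I := by
    simp only [mul_add, add_mul, mul_smul_comm, smul_mul_assoc, mul_one, h.j, h.t6, neg_mul,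
      h.t3]
    module
  rw [k10] at k9
  have hc : c = 0 := by
    have e : c • (1 : R) = (1 / 2 : ℂ) • ((c • (1 : R) + d • I) - ((-c) • (1 : R) + d • I)) := by
      module
    rw [k8, k9, sub_zero, smul_zero] at e
    exact (smul_eq_zero.1 e).resolve_right hone
  have hd : d = 0 := by
    rw [hc, zero_smul, zero_add] at k8
    have e := congrArg (fun x => x * I) k8
    simp only [smul_mul_assoc, h.i, zero_mul] at e
    exact (smul_eq_zero.1 e).resolve_right (neg_ne_zero.2 hone)
  exact ⟨ha, hb, hc, hd⟩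

theorem QQ.iS : I ∈ S3 I J := mem_S3.2 ⟨1, 0, 0, by module⟩

theorem QQ.jS : J ∈ S3 I J := mem_S3.2 ⟨0, 1, 0, by module⟩

theorem QQ.ijS : I * J ∈ S3 I J := mem_S3.2 ⟨0, 0, 1, by module⟩

/-- The pure quaternions are a simple Lie algebra. -/
theorem QQ.simple (𝔧 : Submodule ℂ R) (hle : 𝔧 ≤ S3 I J)
    (hbr : ∀ x ∈ S3 I J, ∀ y ∈ 𝔧, x * y - y * x ∈ 𝔧) : 𝔧 = ⊥ ∨ 𝔧 = S3 I J := by
  by_cases h0 : 𝔧 = ⊥
  · exact Or.inl h0
  right
  obtain ⟨y, hy, hy0⟩ := (Submodule.ne_bot_iff 𝔧).1 h0
  refine le_antisymm hle ?_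
  have hall : ∀ x ∈ 𝔧, x = I ∨ x = J ∨ x = I * J → S3 I J ≤ 𝔧 := by
    have e12 : I * J - J * I = (2 : ℂ) • (I * J) := by rw [h.t6]; module
    have e13 : I * (I * J) - I * J * I = (-2 : ℂ) • J := by rw [h.t1, h.t2]; module
    have e23 : J * (I * J) - I * J * J = (2 : ℂ) • I := by rw [h.t4, h.t3]; module
    have key : ∀ {z : R} {c : ℂ}, c ≠ 0 → c • z ∈ 𝔧 → z ∈ 𝔧 := fun {z c} hc hz => by
      have h1 := 𝔧.smul_mem c⁻¹ hz
      rwa [smul_smul, inv_mul_cancel₀ hc, one_smul] at h1
    have fin : I ∈ 𝔧 → J ∈ 𝔧 → I * J ∈ 𝔧 → S3 I J ≤ 𝔧 := by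
      intro h1 h2 h3
      unfold S3
      rw [Submodule.span_le]
      rintro x (rfl | rfl | rfl)
      · exact h1
      · exact h2
      · exact h3
    rintro x hx (rfl | rfl | rfl)
    · have h1 := hbr J h.jS x hx
      have h2 : J * x - x * J = (-2 : ℂ) • (x * J) := by rw [h.t6]; module
      rw [h2] at h1
      have h3 := key (by norm_num) h1
      have h4 := hbr x h.iS _ h3
      rw [e13] at h4
      exact fin hx (key (by norm_num) h4) h3
    · have h1 := hbr I h.iS x hx
      rw [e12] at h1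
      have h3 := key (by norm_num) h1
      have h4 := hbr x h.jS _ h3
      rw [e23] at h4
      exact fin (key (by norm_num) h4) hx h3
    · have h1 := hbr I h.iS _ hx
      rw [e13] at h1
      have h2 := hbr J h.jS _ hx
      rw [e23] at h2
      exact fin (key (by norm_num) h2) (key (by norm_num) h1) hx
  obtain ⟨a, b, c, rfl⟩ := mem_S3.1 (hle hy)
  have key : ∀ {z : R} {c : ℂ}, c ≠ 0 → c • z ∈ 𝔧 → z ∈ 𝔧 := fun {z c} hc hz => by
    have h1 := 𝔧.smul_mem c⁻¹ hz
    rwa [smul_smul, inv_mul_cancel₀ hc, one_smul] at h1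
  have p1 : b • J + c • (I * J) ∈ 𝔧 := by
    have h1 := hbr I h.iS _ (hbr I h.iS _ hy)
    refine key (c := -4) (by norm_num) ?_
    convert h1 using 1
    have e := h.br 1 0 0 a b c
    have e' : (1 : ℂ) • I + (0 : ℂ) • J + (0 : ℂ) • (I * J) = I := by module
    rw [e'] at e
    rw [e]
    have e2 := h.br 1 0 0 (2 * (0 * c - 0 * b)) (2 * (0 * a - 1 * c)) (2 * (1 * b - 0 * a))
    rw [e'] at e2
    rw [e2]
    module
  have p2 : a • I ∈ 𝔧 := by
    have h1 := 𝔧.sub_mem hy p1
    convert h1 using 1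
    module
  by_cases ha : a = 0
  swap
  · exact hall I (key ha p2) (Or.inl rfl)
  have p3 : c • (I * J) ∈ 𝔧 := by
    have h1 := hbr J h.jS _ (hbr J h.jS _ p1)
    refine key (c := -4) (by norm_num) ?_
    convert h1 using 1
    have e := h.br 0 1 0 0 b c
    have e' : (0 : ℂ) • I + (1 : ℂ) • J + (0 : ℂ) • (I * J) = J := by module
    have e'' : (0 : ℂ) • I + b • J + c • (I * J) = b • J + c • (I * J) := by module
    rw [e', e''] at e
    rw [e]
    have e2 := h.br 0 1 0 (2 * (1 * c - 0 * b)) (2 * (0 * 0 - 0 * c)) (2 * (0 * b - 1 * 0))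
    rw [e'] at e2
    rw [e2]
    module
  have p4 : b • J ∈ 𝔧 := by
    have h1 := 𝔧.sub_mem p1 p3
    convert h1 using 1
    module
  by_cases hb : b = 0
  swap
  · exact hall J (key hb p4) (Or.inr (Or.inl rfl))
  by_cases hc : c = 0
  · exfalso
    apply hy0
    rw [ha, hb, hc]
    module
  · exact hall (I * J) (key hc p3) (Or.inr (Or.inr rfl))

/-- The pure quaternions are rigid. -/
theorem QQ.rigid [Nontrivial R] (𝔥 : Submodule ℂ R) (hle : 𝔥 ≤ S3 I J)
    (hbr : ∀ x ∈ 𝔥, ∀ y ∈ 𝔥, x * y - y * x ∈ 𝔥)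
    (hgen : ∀ z ∈ S3 I J, z ∈ Algebra.adjoin ℂ (𝔥 : Set R)) : S3 I J ≤ 𝔥 := by
  classical
  have hLI : LinearIndependent ℂ ![(1 : R), I, J, I * J] := by
    rw [Fintype.linearIndependent_iff]
    intro f hf
    rw [Fin.sum_univ_four] at hf
    simp only [Matrix.cons_val_zero, Matrix.cons_val_one, Matrix.cons_val_two, Matrix.head_cons,
      Matrix.tail_cons, Matrix.cons_val_three] at hf
    obtain ⟨h1, h2, h3, h4⟩ := h.ind hf
    intro i
    fin_cases i
    · exact h1
    · exact h2
    · exact h3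
    · exact h4
  haveI : FiniteDimensional ℂ (S3 I J) := by
    unfold S3
    exact FiniteDimensional.span_of_finite ℂ (Set.toFinite _)
  have hS3 : finrank ℂ (S3 I J) = 3 := by
    have h1 : S3 I J = Submodule.span ℂ (Set.range ![I, J, I * J]) := by
      unfold S3
      congr 1
      ext x
      simp [Fin.exists_fin_succ, eq_comm]
      tauto
    rw [h1, finrank_span_eq_card]
    · simp
    · have h2 := hLI.comp (Fin.succ : Fin 3 → Fin 4) (Fin.succ_injective 3)
      convert h2 using 1
      ext i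
      fin_cases i <;> rfl
  haveI : FiniteDimensional ℂ 𝔥 := Submodule.finiteDimensional_of_le hle
  by_contra hcon
  have hlt : 𝔥 < S3 I J := lt_of_le_of_ne hle fun h' => hcon h'.ge
  have hfr : finrank ℂ 𝔥 < 3 := by
    have h1 := Submodule.finrank_lt_finrank_of_lt hlt
    rwa [hS3] at h1
  -- the algebra generated by `𝔥` is the sum of the scalars and `𝔥`
  let B : Submodule ℂ R := Submodule.span ℂ {(1 : R)} ⊔ 𝔥
  have hmul : ∀ x ∈ 𝔥, ∀ y ∈ 𝔥, x * y ∈ B := by
    intro x hx y hy
    obtain ⟨a, b, c, rfl⟩ := mem_S3.1 (hle hx)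
    obtain ⟨a', b', c', rfl⟩ := mem_S3.1 (hle hy)
    have h1 := hbr _ hx _ hy
    rw [h.br] at h1
    rw [h.mul]
    refine Submodule.add_mem_sup (Submodule.smul_mem _ _ (Submodule.mem_span_singleton_self _)) ?_
    have h2 := 𝔥.smul_mem (1 / 2 : ℂ) h1
    convert h2 using 1
    module
  have hB : ∀ z ∈ Algebra.adjoin ℂ (𝔥 : Set R), z ∈ B := by
    intro z hz
    have key : ∀ z ∈ Algebra.adjoin ℂ (𝔥 : Set R), ∀ x ∈ B, z * x ∈ B := by
      intro z hz
      induction hz using Algebra.adjoin_induction with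
      | mem z hz =>
        intro x hx
        obtain ⟨u, hu, v, hv, rfl⟩ := Submodule.mem_sup.1 hx
        obtain ⟨t, rfl⟩ := Submodule.mem_span_singleton.1 hu
        rw [mul_add, mul_smul_comm, mul_one]
        exact B.add_mem (B.smul_mem t (Submodule.mem_sup_right hz)) (hmul z hz v hv)
      | algebraMap c =>
        intro x hx
        rw [Algebra.algebraMap_eq_smul_one, smul_mul_assoc, one_mul]
        exact B.smul_mem c hx
      | add x y _ _ hx hy =>
        intro z hz
        rw [add_mul]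
        exact B.add_mem (hx z hz) (hy z hz)
      | mul x y _ _ hx hy =>
        intro z hz
        rw [mul_assoc]
        exact hx _ (hy z hz)
    have h1 := key z hz 1 (Submodule.mem_sup_left (Submodule.mem_span_singleton_self _))
    rwa [mul_one] at h1
  haveI : FiniteDimensional ℂ (Submodule.span ℂ {(1 : R)}) :=
    FiniteDimensional.span_of_finite ℂ (Set.toFinite _)
  have hBfr : finrank ℂ B ≤ 3 := by
    have h1 := Submodule.finrank_add_le_finrank_add_finrank (Submodule.span ℂ {(1 : R)}) 𝔥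
    have h2 : finrank ℂ (Submodule.span ℂ {(1 : R)}) ≤ 1 := by
      have h3 := finrank_span_le_card (R := ℂ) ({(1 : R)} : Set R)
      simpa using h3
    change finrank ℂ (Submodule.span ℂ {(1 : R)} ⊔ 𝔥 : Submodule ℂ R) ≤ 3
    omega
  have h4 : Submodule.span ℂ (Set.range ![(1 : R), I, J, I * J]) ≤ B := by
    rw [Submodule.span_le]
    rintro _ ⟨i, rfl⟩
    fin_cases i
    · exact Submodule.mem_sup_left (Submodule.mem_span_singleton_self _)
    · exact hB _ (hgen _ h.iS)
    · exact hB _ (hgen _ h.jS)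
    · exact hB _ (hgen _ h.ijS)
  have h5 := Submodule.finrank_mono h4
  rw [finrank_span_eq_card hLI] at h5
  simp at h5
  omega

end Quat

end Pool.Agent.L0h14.QU
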