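import Pool.Agent.L0h14.QU.Comp
import Pool.Agent.L0h14.QU.Base
import Pool.Agent.N113.BT.Main

set_option autoImplicit false
set_option linter.unusedSectionVars false
set_option linter.unusedVariables false

/-!
# Several orthogonal summands: the scalars of linked summands agree
-/

open Module Matrix

noncomputable section

namespace Pool.Agent.L0h14.QU

open Pool.Agent.Y102 Pool.Agent.N208.AM Pool.Agent.N192.GP Pool.Agent.N113.BT

variable {g k : ℕ}

/-- Summands of the complex homology, with Clifford systems. -/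
structure Part (g k : ℕ) where
  d : Fin k → ℕ
  N : Fin k → ℕ
  E : ∀ s, Fin (N s) → Matrix (Fin (d s)) (Fin (d s)) ℂ
  P : ∀ s, Matrix (Fin (2 * g)) (Fin (d s)) ℂ
  Q : ∀ s, Matrix (Fin (d s)) (Fin (2 * g)) ℂ

/-- The action on a summand. -/
def Part.ac (S : Part g k) (s : Fin k) (x : Matrix (Fin (2 * g)) (Fin (2 * g)) ℂ) :
    Matrix (Fin (S.d s)) (Fin (S.d s)) ℂ := S.Q s * x * S.P s

/-- An element of the Lie algebra has the same scalar on two summands. -/
def Part.Same (S : Part g k) (s t : Fin k) (X : Module.End ℚ (Fin (2 * g) → ℚ)) : Prop :=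
  ∃ c : ℂ, S.ac s (toC X) + c • 1 ∈ so1 (S.E s) ∧ S.ac t (toC X) + c • 1 ∈ so1 (S.E t)

/-- The hypotheses. -/
structure Sys (A : AbVar g) (S : Part g k) (C : Set (Fin k)) (R : Module.End ℚ A.H1) (D : ℚ) :
    Prop where
  sq : ∀ s i, S.E s i * S.E s i = 1
  anti : ∀ s i j, i ≠ j → S.E s i * S.E s j = -(S.E s j * S.E s i)
  rank : ∀ s, S.N s = 3 ∨ 6 ≤ S.N s
  pos : ∀ s, 0 < S.d s
  qp : ∀ s, S.Q s * S.P s = 1
  qp' : ∀ s t, s ≠ t → S.Q s * S.P t = 0
  st : ∀ s, ∀ X ∈ A.NA, S.P s * S.Q s * toC X = toC X * (S.P s * S.Q s)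
  act : ∀ s, ∀ X ∈ A.NA, ∃ t : ℂ, S.Q s * toC X * S.P s + t • 1 ∈ so1 (S.E s)
  sep : ∀ s i j, i ≠ j → ∃ Y ∈ Algebra.adjoin ℂ (CS A.NA : Set (Matrix (Fin (2 * g)) (Fin (2 * g)) ℂ)),
    S.E s i * S.E s j = S.Q s * Y * S.P s ∧ ∀ t, t ≠ s → S.Q t * Y * S.P t = 0
  cpt : ∀ s ∈ C, cR (JR A) * S.P s = Complex.I • S.P s
  ncpt : ∀ s ∉ C, S.Q s * cR (JR A) * S.P s ∈ so1 (S.E s)
  real : ∀ s ∉ C, ∀ Y ∈ CS (der A.NA), Y * S.P s = 0 → cj Y * S.P s = 0
  D0 : 0 < D
  cube : R * R * R = -(D • R)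
  sum : ∑ s, S.P s * S.Q s = (-(1 / (2 * (D : ℂ)))) •
    (toC R * toC R + (Complex.I * (Real.sqrt (D : ℝ) : ℂ)) • toC R)
  same : ∀ s t, s ≠ t → S.N s = S.N t → (∀ X : Module.End ℚ A.H1, (∀ L : Submodule ℚ (Module.End ℚ A.H1),
    der A.NA ≤ L → L ≤ A.NA → JR A ∈ RS L → X ∈ L) → S.Same s t X) → ∀ X ∈ A.NA, S.Same s t X

namespace Sys

variable {A : AbVar g} {S : Part g k} {C : Set (Fin k)} {R : Module.End ℚ A.H1} {D : ℚ}
  (h : Sys A S C R D)
include h

theorem idem (s : Fin k) : S.P s * S.Q s * (S.P s * S.Q s) = S.P s * S.Q s := by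
  rw [Matrix.mul_assoc, ← Matrix.mul_assoc (S.Q s), h.qp, Matrix.one_mul]

theorem comm (s : Fin k) {x : Matrix (Fin (2 * g)) (Fin (2 * g)) ℂ} (hx : x ∈ CS A.NA) :
    S.P s * S.Q s * x = x * (S.P s * S.Q s) := CS_comm (fun X hX => h.st s X hX) hx

theorem xP (s : Fin k) {x : Matrix (Fin (2 * g)) (Fin (2 * g)) ℂ} (hx : x ∈ CS A.NA) :
    x * S.P s = S.P s * S.ac s x := by
  unfold Part.ac
  have h1 : x * S.P s = x * (S.P s * S.Q s) * S.P s := by
    rw [Matrix.mul_assoc x, Matrix.mul_assoc (S.P s), h.qp, Matrix.mul_one]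
  rw [h1, ← h.comm s hx]
  simp only [Matrix.mul_assoc]

theorem Qx (s : Fin k) {x : Matrix (Fin (2 * g)) (Fin (2 * g)) ℂ} (hx : x ∈ CS A.NA) :
    S.Q s * x = S.ac s x * S.Q s := by
  unfold Part.ac
  calc S.Q s * x = S.Q s * (S.P s * S.Q s * x) := by
        rw [← Matrix.mul_assoc, ← Matrix.mul_assoc, h.qp, Matrix.one_mul]
    _ = S.Q s * (x * (S.P s * S.Q s)) := by rw [h.comm s hx]
    _ = S.Q s * x * S.P s * S.Q s := by simp only [Matrix.mul_assoc]

theorem ac_mul (s : Fin k) {x y : Matrix (Fin (2 * g)) (Fin (2 * g)) ℂ} (hy : y ∈ CS A.NA) :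
    S.ac s (x * y) = S.ac s x * S.ac s y := by
  have h1 : S.ac s (x * y) = S.Q s * x * (y * S.P s) := by
    unfold Part.ac
    simp only [Matrix.mul_assoc]
  rw [h1, h.xP s hy]
  unfold Part.ac
  simp only [Matrix.mul_assoc]

omit h in
theorem ac_sub (s : Fin k) (x y : Matrix (Fin (2 * g)) (Fin (2 * g)) ℂ) :
    S.ac s (x - y) = S.ac s x - S.ac s y := by
  unfold Part.ac
  rw [Matrix.mul_sub, Matrix.sub_mul]

omit h in
theorem ac_add (s : Fin k) (x y : Matrix (Fin (2 * g)) (Fin (2 * g)) ℂ) :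
    S.ac s (x + y) = S.ac s x + S.ac s y := by
  unfold Part.ac
  rw [Matrix.mul_add, Matrix.add_mul]

omit h in
theorem ac_smul (s : Fin k) (c : ℂ) (x : Matrix (Fin (2 * g)) (Fin (2 * g)) ℂ) :
    S.ac s (c • x) = c • S.ac s x := by
  unfold Part.ac
  rw [Matrix.mul_smul, Matrix.smul_mul]

theorem ac_br (s : Fin k) {x y : Matrix (Fin (2 * g)) (Fin (2 * g)) ℂ} (hx : x ∈ CS A.NA)
    (hy : y ∈ CS A.NA) : S.ac s (x * y - y * x) = S.ac s x * S.ac s y - S.ac s y * S.ac s x := by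
  rw [ac_sub, h.ac_mul s hx, h.ac_mul s hy]

omit h in
theorem hbr : ∀ X ∈ A.NA, ∀ Y ∈ A.NA, X * Y - Y * X ∈ der A.NA := fun X hX Y hY =>
  Submodule.subset_span ⟨X, hX, Y, hY, rfl⟩

omit h in
theorem hdN : der A.NA ≤ A.NA := der_NA_le

theorem act_C (s : Fin k) {x : Matrix (Fin (2 * g)) (Fin (2 * g)) ℂ} (hx : x ∈ CS A.NA) :
    ∃ t : ℂ, S.ac s x + t • 1 ∈ so1 (S.E s) := by
  unfold CS at hx
  induction hx using Submodule.span_induction with
  | mem x hx =>
    obtain ⟨X, hX, rfl⟩ := hx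
    exact h.act s X hX
  | zero =>
    refine ⟨0, ?_⟩
    unfold Part.ac
    rw [Matrix.mul_zero, Matrix.zero_mul, zero_smul, add_zero]
    exact Submodule.zero_mem _
  | add a b _ _ ha hb =>
    obtain ⟨t, ht⟩ := ha
    obtain ⟨u, hu⟩ := hb
    refine ⟨t + u, ?_⟩
    have h1 := Submodule.add_mem _ ht hu
    rw [ac_add, add_smul]
    convert h1 using 1
    abel
  | smul c a _ ha =>
    obtain ⟨t, ht⟩ := ha
    refine ⟨c * t, ?_⟩
    have h1 := Submodule.smul_mem _ c ht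
    rw [ac_smul, mul_smul, ← smul_add]
    exact h1

/-- The derived algebra acts through the orthogonal Lie algebra. -/
theorem ac_der (s : Fin k) {x : Matrix (Fin (2 * g)) (Fin (2 * g)) ℂ} (hx : x ∈ CS (der A.NA)) :
    S.ac s x ∈ so1 (S.E s) := by
  unfold CS at hx
  induction hx using Submodule.span_induction with
  | mem x hx =>
    obtain ⟨X, hX, rfl⟩ := hx
    unfold der at hX
    induction hX using Submodule.span_induction with
    | mem X hX =>
      obtain ⟨X, hX, Y, hY, rfl⟩ := hX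
      have h1 : toC (X * Y - Y * X) = toC X * toC Y - toC Y * toC X := by
        rw [← cR_toR (X * Y - Y * X), toR_sub, cR_sub, cR_toR, cR_toR, toC_mul', toC_mul']
      rw [h1, h.ac_br s (toC_mem hX) (toC_mem hY)]
      obtain ⟨t, ht⟩ := h.act_C s (toC_mem hX)
      obtain ⟨u, hu⟩ := h.act_C s (toC_mem hY)
      have h2 := so1_br (h.sq s) (h.anti s) ht hu
      convert h2 using 1
      simp only [add_mul, mul_add, smul_mul_assoc, mul_smul_comm, one_mul, mul_one]
      module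
    | zero =>
      have : toC (0 : Module.End ℚ A.H1) = 0 := by ext i j; simp [toC]
      rw [this]
      unfold Part.ac
      rw [Matrix.mul_zero, Matrix.zero_mul]
      exact Submodule.zero_mem _
    | add a b _ _ ha hb =>
      have : toC (a + b) = toC a + toC b := by ext i j; simp [toC]
      rw [this, ac_add]
      exact Submodule.add_mem _ ha hb
    | smul c a _ ha =>
      have : toC (c • a) = (c : ℂ) • toC a := by ext i j; simp [toC]
      rw [this, ac_smul]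
      exact Submodule.smul_mem _ _ ha
  | zero =>
    unfold Part.ac
    rw [Matrix.mul_zero, Matrix.zero_mul]
    exact Submodule.zero_mem _
  | add a b _ _ ha hb => rw [ac_add]; exact Submodule.add_mem _ ha hb
  | smul c a _ ha => rw [ac_smul]; exact Submodule.smul_mem _ _ ha

theorem rig (s : Fin k) :
    RigPart A (matE (2 * g) (S.P s * S.Q s)) ((so1 (S.E s)).map (io (S.P s) (S.Q s))) := by
  refine rigPart_corner (so1_rigid (h.sq s) (h.anti s) (h.rank s) (h.pos s))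
    (fun x hx y hy => so1_br (h.sq s) (h.anti s) hx hy) (h.qp s) (fun X hX => h.st s X hX)
    (fun X hX => h.act s X hX) fun z hz => ?_
  unfold so1 soM at hz
  induction hz using Submodule.span_induction with
  | mem x hx =>
    obtain ⟨i, j, hij, -, rfl⟩ := hx
    obtain ⟨Y, hY, h1, -⟩ := h.sep s i j hij
    exact ⟨Y, hY, h1⟩
  | zero => exact ⟨0, Subalgebra.zero_mem _, by rw [Matrix.mul_zero, Matrix.zero_mul]⟩
  | add x y _ _ hx hy =>
    obtain ⟨a, ha, h1⟩ := hx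
    obtain ⟨b, hb, h2⟩ := hy
    exact ⟨a + b, Subalgebra.add_mem _ ha hb, by rw [Matrix.mul_add, Matrix.add_mul, h1, h2]⟩
  | smul t x _ hx =>
    obtain ⟨a, ha, h1⟩ := hx
    exact ⟨t • a, Subalgebra.smul_mem _ ha t, by rw [Matrix.mul_smul, Matrix.smul_mul, h1]⟩

variable {q : Submodule ℚ (Module.End ℚ A.H1)} (hq : A.Full q)
include hq

omit h in
theorem hqd : der q ≤ der A.NA := by
  unfold der
  exact Submodule.span_mono fun _ ⟨X, hX, Y, hY, e⟩ => ⟨X, hq.le hX, Y, hq.le hY, e⟩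

/-- One summand: the derived algebras have the same image. -/
theorem single (s : Fin k) {x : Matrix (Fin (2 * g)) (Fin (2 * g)) ℂ} (hx : x ∈ CS (der A.NA)) :
    ∃ y ∈ CS (der q), S.Q s * x = S.Q s * y := by
  unfold CS at hx
  induction hx using Submodule.span_induction with
  | mem x hx =>
    obtain ⟨X, hX, rfl⟩ := hx
    obtain ⟨y, hy, h1⟩ := (h.rig s).der hq hX
    obtain ⟨z, rfl⟩ := (matE (2 * g)).surjective y
    refine ⟨z, matE_CS.2 hy, ?_⟩
    rw [← matE_toC, ← map_mul, ← map_mul] at h1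
    have h2 := (matE (2 * g)).injective h1
    have h3 : S.Q s * (S.P s * S.Q s * toC X) = S.Q s * (S.P s * S.Q s * z) :=
      congrArg (fun m => S.Q s * m) h2
    rw [← Matrix.mul_assoc, ← Matrix.mul_assoc, h.qp, Matrix.one_mul, ← Matrix.mul_assoc,
      ← Matrix.mul_assoc, h.qp, Matrix.one_mul] at h3
    exact h3
  | zero => exact ⟨0, Submodule.zero_mem _, rfl⟩
  | add a b _ _ ha hb =>
    obtain ⟨y, hy, h1⟩ := ha
    obtain ⟨z, hz, h2⟩ := hb
    exact ⟨y + z, Submodule.add_mem _ hy hz, by rw [Matrix.mul_add, Matrix.mul_add, h1, h2]⟩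
  | smul c a _ ha =>
    obtain ⟨y, hy, h1⟩ := ha
    exact ⟨c • y, Submodule.smul_mem _ _ hy, by rw [Matrix.mul_smul, Matrix.mul_smul, h1]⟩

/-- The real version, for real summands. -/
theorem singleR {s : Fin k} (hs : s ∉ C) {x : Matrix (Fin (2 * g)) (Fin (2 * g)) ℝ}
    (hx : x ∈ RS (der A.NA)) : ∃ y ∈ RS (der q), S.Q s * cR x = S.Q s * cR y := by
  obtain ⟨y, hy, h1⟩ := h.single hq s (cR_mem hx)
  have hy' : y ∈ CS (der A.NA) := CS_mono (hqd hq) hy
  have hz : cR x - y ∈ CS (der A.NA) := Submodule.sub_mem _ (cR_mem hx) hy'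
  have h2 : (cR x - y) * S.P s = 0 := by
    rw [h.xP s (CS_mono hdN hz)]
    unfold Part.ac
    rw [Matrix.mul_sub, h1, sub_self, Matrix.zero_mul, Matrix.mul_zero]
  have h3 := h.real s hs _ hz h2
  have h4 : S.Q s * cj (cR x - y) = 0 := by
    rw [h.Qx s (CS_mono hdN (cj_mem hz))]
    unfold Part.ac
    rw [Matrix.mul_assoc (S.Q s), h3, Matrix.mul_zero, Matrix.zero_mul]
  refine ⟨reP y, (re_im_mem hy).1, ?_⟩
  have h5 : cj (cR x - y) = cR x - cj y := by
    ext i j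
    simp
  rw [h5, Matrix.mul_sub, sub_eq_zero] at h4
  have h6 : cR (reP y) = (1 / 2 : ℂ) • (y + cj y) := by
    rw [cj_eq]
    nth_rewrite 2 [re_im y]
    module
  rw [h6, Matrix.mul_smul, Matrix.mul_add, ← h1, ← h4]
  module

/-- Surjectivity. -/
theorem surj (s : Fin k) {z : Matrix (Fin (S.d s)) (Fin (S.d s)) ℂ} (hz : z ∈ so1 (S.E s)) :
    ∃ y ∈ CS (der q), S.ac s y = z := by
  have key : ∀ x ∈ so1 (S.E s), ∃ x' ∈ CS q, ∃ c : ℂ, x = S.ac s x' + c • 1 := by
    intro x hx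
    obtain ⟨x', hx', c, h1⟩ := (h.rig s).surj hq (io (S.P s) (S.Q s) x) ⟨x, hx, rfl⟩
    obtain ⟨w, rfl⟩ := (matE (2 * g)).surjective x'
    refine ⟨w, matE_CS.2 hx', c, ?_⟩
    rw [io_apply, ← map_mul, ← map_smul, ← map_add] at h1
    have h2 := (matE (2 * g)).injective h1
    have h3 : S.Q s * (S.P s * x * S.Q s) * S.P s
        = S.Q s * (S.P s * S.Q s * w + c • (S.P s * S.Q s)) * S.P s :=
      congrArg (fun m => S.Q s * m * S.P s) h2
    have e1 : S.Q s * (S.P s * x * S.Q s) * S.P s = x := by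
      calc S.Q s * (S.P s * x * S.Q s) * S.P s = (S.Q s * S.P s) * x * (S.Q s * S.P s) := by
            simp only [Matrix.mul_assoc]
        _ = x := by rw [h.qp, Matrix.one_mul, Matrix.mul_one]
    have e2 : S.Q s * (S.P s * S.Q s * w + c • (S.P s * S.Q s)) * S.P s = S.ac s w + c • 1 := by
      unfold Part.ac
      rw [Matrix.mul_add, Matrix.add_mul, Matrix.mul_smul, Matrix.smul_mul,
        ← Matrix.mul_assoc (S.Q s) (S.P s * S.Q s) w, ← Matrix.mul_assoc (S.Q s) (S.P s) (S.Q s),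
        h.qp, Matrix.one_mul, h.qp]
    rw [e1, e2] at h3
    exact h3
  have key2 : ∀ z ∈ Submodule.span ℂ {z : Matrix (Fin (S.d s)) (Fin (S.d s)) ℂ |
      ∃ x ∈ so1 (S.E s), ∃ y ∈ so1 (S.E s), z = x * y - y * x},
      ∃ y ∈ CS (der q), S.ac s y = z := by
    intro z hz
    induction hz using Submodule.span_induction with
    | mem z hz =>
      obtain ⟨x, hx, y, hy, rfl⟩ := hz
      obtain ⟨x', hx', c, rfl⟩ := key x hx
      obtain ⟨y', hy', c', rfl⟩ := key y hy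
      refine ⟨x' * y' - y' * x', CS_br (V := der q) (fun X hX Y hY =>
        Submodule.subset_span ⟨X, hX, Y, hY, rfl⟩) hx' hy', ?_⟩
      rw [h.ac_br s (CS_mono hq.le hx') (CS_mono hq.le hy')]
      simp only [add_mul, mul_add, smul_mul_assoc, mul_smul_comm, one_mul, mul_one]
      module
    | zero =>
      refine ⟨0, Submodule.zero_mem _, ?_⟩
      unfold Part.ac
      rw [Matrix.mul_zero, Matrix.zero_mul]
    | add a b _ _ ha hb =>
      obtain ⟨x, hx, rfl⟩ := ha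
      obtain ⟨y, hy, rfl⟩ := hb
      exact ⟨x + y, Submodule.add_mem _ hx hy, ac_add s x y⟩
    | smul c a _ ha =>
      obtain ⟨x, hx, rfl⟩ := ha
      exact ⟨c • x, Submodule.smul_mem _ c hx, ac_smul s c x⟩
  exact key2 z (so1_perfect (h.sq s) (h.anti s) (h.rank s) (h.pos s) hz)

end Sys

end Pool.Agent.L0h14.QU
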